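import Pool.Agent.Y626.WC.Sim
import Pool.Agent.Y626.WC.Self
import Pool.Agent.Y626.WC.Total

/-!
# Simulating a strategy which asks lists of questions and which is coded by an oracle
-/

set_option autoImplicit false

namespace Pool.Agent.L0h33.UD

open Pool.Agent.NPC Pool.Agent.H620R2.Gauge Pool.Agent.TH678.GC Pool.Agent.Y626.WC

/-- decoding of a list of answered questions -/
def deK (s : List Bool) : List (List Bool × Bool) := (unbits (List (List Bool × Bool)) s).getD []

/-- decoding of a list of questions -/
def deQ (s : List Bool) : List (List Bool) := (unbits (List (List Bool)) s).getD []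

theorem deK_bits (l : List (List Bool × Bool)) : deK (bits l) = l := by
  unfold deK
  rw [unbits_bits]
  rfl

theorem deQ_bits (l : List (List Bool)) : deQ (bits l) = l := by
  unfold deQ
  rw [unbits_bits]
  rfl

theorem getD_poly {α : Type} [TEnc α] [TDec α] (d : α) :
    NPC.Poly (fun s : List Bool => (unbits α s).getD d) :=
  (NPC.Poly.optCases (o := unbits α) (g := fun _ => d) (h := fun _ b => b)
    poly_unbits (NPC.Poly.const _) (NPC.Poly.snd NPC.Poly.id)).congr fun s => by
      cases unbits α s <;> rfl

theorem poly_deK : NPC.Poly deK := getD_poly _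

theorem poly_deQ : NPC.Poly deQ := getD_poly _

/-- one round: the list of questions is asked -/
def stp (A : Oracle) (Z : List Bool → List Bool → List Bool) (y s : List Bool) : List Bool :=
  bits (deK s ++ (deQ (Z y s)).map (fun q => (q, A q)))

theorem sz_deQ (z : List Bool) : sz (deQ z) ≤ z.length + 1 := by
  unfold deQ
  rcases h : unbits (List (List Bool)) z with _ | l
  · simp
  · rw [Option.getD_some]
    have h1 : bits l = z := bits_of_unbits h
    rw [← h1, bits_length]
    omega

theorem sz_answers (A : Oracle) (l : List (List Bool)) :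
    sz (l.map (fun q => (q, A q))) ≤ 5 * sz l := by
  induction l with
  | nil => simp
  | cons a l ih =>
    rw [List.map_cons, sz_list_cons, sz_list_cons, sz_pair]
    have := sz_bool_le (A a)
    have h2 : 1 ≤ sz a := by
      have := length_lt_sz a
      omega
    omega

theorem stp_length (A : Oracle) (Z : List Bool → List Bool → List Bool) (y s : List Bool)
    (κ : List (List Bool × Bool)) (hs : s = bits κ) (hZ : (Z y s).length ≤ y.length) :
    (stp A Z y s).length ≤ s.length + 5 * (y.length + 1) := by
  unfold stp
  rw [hs, deK_bits, bits_length, bits_length, ← hs]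
  have h1 := sz_append κ ((deQ (Z y s)).map (fun q => (q, A q)))
  have h2 := sz_answers A (deQ (Z y s))
  have h3 := sz_deQ (Z y s)
  omega

section sim

variable {A E : Oracle} {Z : List Bool → List Bool → List Bool} {FV : List Bool → List Bool → Bool}

theorem iter_form (A : Oracle) (Z : List Bool → List Bool → List Bool) (y : List Bool) (i : ℕ) :
    ∃ κ : List (List Bool × Bool), (stp A Z y)^[i] (bits ([] : List (List Bool × Bool))) = bits κ := by
  cases i with
  | zero => exact ⟨[], rfl⟩
  | succ i => rw [Function.iterate_succ_apply']; exact ⟨_, rfl⟩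

theorem isFP_sim
    (h1 : ∀ y h t, E (ec y h (true :: t.bits)) = decide (t < (Z y h).length))
    (h2 : ∀ (y h : List Bool) (t : ℕ), E (ec y h (false :: t.bits)) = (Z y h).getD t false)
    (h3 : ∀ y h, E (ec y h []) = FV y h)
    (h4 : ∀ y h, (Z y h).length ≤ y.length) :
    IsFP (join A E) (fun x => [FV (unpair x).2 ((stp A Z (unpair x).2)^[x.length]
      (bits ([] : List (List Bool × Bool))))]) := by
  have hask : IsFP (join A E) (fun z : List Bool => (deQ z).map A) := by
    have h := IsFP.tt (A := join A E) (Q := fun z : List Bool => (deQ z).map fun q => false :: q)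
      (H := fun p => p.2)
      (NPC.Poly.map (F := fun (_ : List Bool) (z : List Bool) => false :: z) poly_deQ
        (NPC.Poly.cons (NPC.Poly.const false) (NPC.Poly.snd NPC.Poly.id)))
      (NPC.Poly.snd NPC.Poly.id)
    refine (congrArg (IsFP (join A E)) (funext fun s => ?_)).mp h
    simp only [List.map_map]
    rfl
  have hr : ∀ b, IsFP (join A E) (fun s : List Bool => (rq b s).map E) := by
    intro b
    have h := IsFP.tt (A := join A E) (Q := fun s => (rq b s).map fun z => true :: z)
      (H := fun p => p.2)
      (NPC.Poly.map (F := fun (_ : List Bool) (z : List Bool) => true :: z) (poly_rq b)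
        (NPC.Poly.cons (NPC.Poly.const true) (NPC.Poly.snd NPC.Poly.id)))
      (NPC.Poly.snd NPC.Poly.id)
    refine (congrArg (IsFP (join A E)) (funext fun s => ?_)).mp h
    simp only [List.map_map]
    rfl
  have hz : IsFP (join A E) (fun s : List Bool => Z (unpair s).1 (unpair s).2) := by
    have h := IsFP.seq (hr true) (hr false) (φ := fun p => p.1) (ψ := fun p => cmb p.2.1 p.2.2)
      (NPC.Poly.fst NPC.Poly.id) (poly_cmb (NPC.Poly.fst (NPC.Poly.snd NPC.Poly.id))
        (NPC.Poly.snd (NPC.Poly.snd NPC.Poly.id)))
    refine (congrArg (IsFP (join A E)) (funext fun s => ?_)).mp h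
    show cmb ((rq true s).map E) ((rq false s).map E) = _
    unfold rq
    rw [List.map_map, List.map_map]
    have e1 : (E ∘ fun t : ℕ => ec (unpair s).1 (unpair s).2 (true :: t.bits)) =
        fun t => decide (t < (Z (unpair s).1 (unpair s).2).length) :=
      funext fun t => h1 _ _ t
    have e2 : (E ∘ fun t : ℕ => ec (unpair s).1 (unpair s).2 (false :: t.bits)) =
        fun t => (Z (unpair s).1 (unpair s).2).getD t false :=
      funext fun t => h2 _ _ t
    rw [e1, e2]
    exact cmb_eq _ _ (h4 _ _)
  -- the list of questions together with the answers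
  have hza : IsFP (join A E) (fun s : List Bool => pairBits (Z (unpair s).1 (unpair s).2)
      ((deQ (Z (unpair s).1 (unpair s).2)).map A)) :=
    IsFP.pair hz (IsFP.comp hask hz)
  have hS : IsFP (join A E) (fun s : List Bool => pairBits (unpair s).1
      (stp A Z (unpair s).1 (unpair s).2)) := by
    have h := IsFP.seq (IsFP.of_poly (A := join A E) (F := fun x => x) NPC.Poly.id) hza
      (φ := fun p => p.1)
      (ψ := fun p => pairBits (unpair p.1).1 (bits (deK (unpair p.1).2 ++
        (deQ (unpair p.2.2).1).zip (unpair p.2.2).2)))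
      (NPC.Poly.fst NPC.Poly.id)
      (Pool.Agent.H622R2.poly_pairBits ((NPC.Poly.fst poly_unpair).comp (NPC.Poly.fst NPC.Poly.id))
        (R2.poly_bits (NPC.Poly.append
          (poly_deK.comp ((NPC.Poly.snd poly_unpair).comp (NPC.Poly.fst NPC.Poly.id)))
          (NPC.Poly.zip
            (poly_deQ.comp ((NPC.Poly.fst poly_unpair).comp (NPC.Poly.snd (NPC.Poly.snd NPC.Poly.id))))
            ((NPC.Poly.snd poly_unpair).comp (NPC.Poly.snd (NPC.Poly.snd NPC.Poly.id)))))))
    refine (congrArg (IsFP (join A E)) (funext fun s => ?_)).mp h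
    simp only [unpair_pairBits]
    unfold stp
    congr 3
    generalize deQ (Z (unpair s).1 (unpair s).2) = l
    induction l with
    | nil => rfl
    | cons a l ih => simp [ih]
  set S : List Bool → List Bool := fun s => pairBits (unpair s).1
      (stp A Z (unpair s).1 (unpair s).2) with hSd
  have hit : ∀ (y : List Bool) (i : ℕ), S^[i] (pairBits y (bits ([] : List (List Bool × Bool)))) =
      pairBits y ((stp A Z y)^[i] (bits ([] : List (List Bool × Bool)))) := by
    intro y i
    induction i with
    | zero => rfl
    | succ i ih =>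
      rw [Function.iterate_succ_apply', ih, Function.iterate_succ_apply']
      simp only [hSd, unpair_pairBits]
  have hlen : ∀ x : List Bool, (unpair x).2.length ≤ x.length := by
    intro x
    have := Pool.Agent.H593R3.DST.unpair_len x
    omega
  have hbd : ∀ (y : List Bool) (i : ℕ),
      ((stp A Z y)^[i] (bits ([] : List (List Bool × Bool)))).length ≤
        1 + i * (5 * (y.length + 1)) := by
    intro y i
    induction i with
    | zero => simp [bits_length]
    | succ i ih =>
      obtain ⟨κ, hκ⟩ := iter_form A Z y i
      rw [Function.iterate_succ_apply']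
      have h5 := stp_length A Z y _ κ hκ (h4 _ _)
      rw [Nat.succ_mul]
      omega
  have hloop := IsFP.loop hS (g := fun x => pairBits (unpair x).2
      (bits ([] : List (List Bool × Bool))))
    (Pool.Agent.H622R2.poly_pairBits (NPC.Poly.snd poly_unpair) (NPC.Poly.const _))
    Polynomial.X (2 * Polynomial.X + 2 + Polynomial.X * (5 * (Polynomial.X + 1))) (by
      intro x i hi
      rw [Polynomial.eval_X] at hi
      rw [hit, length_pairBits]
      have h5 := hlen x
      have h6 := hbd (unpair x).2 i
      have h7 : i * (5 * ((unpair x).2.length + 1)) ≤ x.length * (5 * (x.length + 1)) :=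
        Nat.mul_le_mul hi (by omega)
      simp only [Polynomial.eval_add, Polynomial.eval_mul, Polynomial.eval_ofNat,
        Polynomial.eval_X, Polynomial.eval_one]
      omega)
  have hfin : IsFP (join A E) (fun s : List Bool => [FV (unpair s).1 (unpair s).2]) := by
    have h := IsFP.tt (A := join A E)
      (Q := fun s : List Bool => [true :: ec (unpair s).1 (unpair s).2 []])
      (H := fun p => p.2)
      (NPC.Poly.cons (NPC.Poly.cons (NPC.Poly.const true)
        (poly_ec (NPC.Poly.fst poly_unpair) (NPC.Poly.snd poly_unpair)
        (NPC.Poly.const []))) (NPC.Poly.const [])) (NPC.Poly.snd NPC.Poly.id)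
    refine (congrArg (IsFP (join A E)) (funext fun s => ?_)).mp h
    simp only [List.map_cons, List.map_nil, join, h3]
  have h := IsFP.comp hfin hloop
  refine (congrArg (IsFP (join A E)) (funext fun x => ?_)).mp h
  simp only [hit, unpair_pairBits, Polynomial.eval_X]

end sim

lemma bits_inj' {m n : ℕ} (h : m.bits = n.bits) : m = n := by
  rw [← valB_bits m, ← valB_bits n, h]

/-- An oracle which codes a strategy; the strategy may refer to the short strings of the
oracle. -/
theorem exists_code (Zf : Oracle → List Bool → List Bool → List Bool)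
    (Ff : Oracle → List Bool → List Bool → Bool) :
    ∃ E : Oracle, ∀ y h : List Bool,
      (∀ t : ℕ, E (ec y h (true :: t.bits)) =
        decide (t < (Zf (cut E (y.length + 1)) y h).length)) ∧
      (∀ t : ℕ, E (ec y h (false :: t.bits)) = (Zf (cut E (y.length + 1)) y h).getD t false) ∧
      E (ec y h []) = Ff (cut E (y.length + 1)) y h := by
  classical
  set QQ : Oracle → List Bool → List Bool → List Bool → Prop := fun E y h v =>
    (v = [] ∧ Ff (cut E (y.length + 1)) y h = true) ∨
    (∃ t : ℕ, v = true :: t.bits ∧ t < (Zf (cut E (y.length + 1)) y h).length) ∨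
    (∃ t : ℕ, v = false :: t.bits ∧ (Zf (cut E (y.length + 1)) y h).getD t false = true)
    with hQQ
  obtain ⟨E, hEF⟩ := exists_self (fun u E => decide (∃ y h v : List Bool, u = ec y h v ∧
    QQ E y h v))
  have hE : ∀ y h v, E (ec y h v) = true ↔ QQ E y h v := by
    intro y h v
    rw [hEF, decide_eq_true_eq]
    have hcut : cut (cut E (ec y h v).length) (y.length + 1) = cut E (y.length + 1) :=
      cut_cut E (by rw [ec_length]; omega)
    have hq : QQ (cut E (ec y h v).length) y h v ↔ QQ E y h v := by
      simp only [hQQ, hcut]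
    constructor
    · rintro ⟨y', h', v', h1, h2⟩
      obtain ⟨rfl, rfl, rfl⟩ := ec_inj h1
      exact hq.1 h2
    · intro h1
      exact ⟨y, h, v, rfl, hq.2 h1⟩
  refine ⟨E, fun y h => ⟨fun t => ?_, fun t => ?_, ?_⟩⟩
  · rw [Bool.eq_iff_iff, hE, decide_eq_true_eq]
    simp only [hQQ]
    constructor
    · rintro (⟨h1, -⟩ | ⟨t', h1, h2⟩ | ⟨t', h1, -⟩)
      · exact absurd h1 (by simp)
      · rw [List.cons.injEq] at h1
        rw [bits_inj' h1.2]
        exact h2
      · exact absurd h1 (by simp)
    · intro h1
      exact Or.inr (Or.inl ⟨t, rfl, h1⟩)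
  · rw [Bool.eq_iff_iff, hE]
    simp only [hQQ]
    constructor
    · rintro (⟨h1, -⟩ | ⟨t', h1, -⟩ | ⟨t', h1, h2⟩)
      · exact absurd h1 (by simp)
      · exact absurd h1 (by simp)
      · rw [List.cons.injEq] at h1
        rw [bits_inj' h1.2]
        exact h2
    · intro h1
      exact Or.inr (Or.inr ⟨t, rfl, h1⟩)
  · rw [Bool.eq_iff_iff, hE]
    simp only [hQQ]
    constructor
    · rintro (⟨-, h1⟩ | ⟨t', h1, -⟩ | ⟨t', h1, -⟩)
      · exact h1
      · exact absurd h1 (by simp)
      · exact absurd h1 (by simp)
    · intro h1
      exact Or.inl ⟨trivial, h1⟩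

end Pool.Agent.L0h33.UD
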