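import Pool.Agent.L0h33.UD.Dom
import Pool.Agent.L0h33.UD.Sim
import Pool.Agent.TH678.EL.Run

/-!
# The strategy
-/

set_option autoImplicit false

namespace Pool.Agent.L0h33.UD

open Pool.Agent.NPC Pool.Agent.H620R2.Gauge Pool.Agent.TH678.GC Pool.Agent.Y626.WC
  Pool.Agent.TH678.EL Finset

/-- all questions of the run of `M` on `z` -/
def QA (M : Alg) (A : Oracle) (z : List Bool) : Finset (List Bool) :=
  qset M A z (M.p.eval z.length) []

/-- the questions to the first oracle -/
def QB (M : Alg) (B K : Oracle) (z : List Bool) : Finset (List Bool) :=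
  ((QA M (join B K) z).filter (fun q => q.head? = some false)).image List.tail

theorem QB_card (M : Alg) (B K : Oracle) (z : List Bool) :
    (QB M B K z).card ≤ (QA M (join B K) z).card :=
  Finset.card_image_le.trans (Finset.card_filter_le _ _)

theorem mem_QB {M : Alg} {B K : Oracle} {z q : List Bool} :
    q ∈ QB M B K z ↔ false :: q ∈ QA M (join B K) z := by
  unfold QB
  rw [Finset.mem_image]
  constructor
  · rintro ⟨u, hu, rfl⟩
    rw [Finset.mem_filter] at hu
    obtain ⟨h1, h2⟩ := hu
    rcases u with _ | ⟨b, u⟩
    · simp at h2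
    · simp only [List.head?_cons, Option.some.injEq] at h2
      subst h2
      exact h1
  · intro h
    exact ⟨false :: q, Finset.mem_filter.2 ⟨h, rfl⟩, rfl⟩

theorem out_agree {M : Alg} {B B' K K' : Oracle} {z : List Bool} {L : ℕ}
    (hlen : ∀ q ∈ QA M (join B K) z, q.length ≤ L) (hK : ∀ u : List Bool, u.length ≤ L → K u = K' u)
    (hB : ∀ q ∈ QB M B K z, B q = B' q) : M.out (join B' K') z = M.out (join B K) z := by
  unfold Alg.out
  apply run_agree
  intro q hq
  have hq' : q ∈ QA M (join B K) z := hq
  rcases q with _ | ⟨b, q⟩
  · rfl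
  · cases b with
    | false => exact hB q (mem_QB.2 hq')
    | true =>
      have h1 := hlen _ hq'
      rw [List.length_cons] at h1
      exact hK q (by omega)

theorem QA_agree {M : Alg} {B B' K K' : Oracle} {z : List Bool} {L : ℕ}
    (hlen : ∀ q ∈ QA M (join B K) z, q.length ≤ L) (hK : ∀ u : List Bool, u.length ≤ L → K u = K' u)
    (hB : ∀ q ∈ QB M B K z, B q = B' q) : QA M (join B' K') z = QA M (join B K) z := by
  have hag : ∀ q ∈ QA M (join B K) z, join B K q = join B' K' q := by
    intro q hq'
    rcases q with _ | ⟨b, q⟩
    · rfl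
    · cases b with
      | false => exact hB q (mem_QB.2 hq')
      | true =>
        have h1 := hlen _ hq'
        rw [List.length_cons] at h1
        exact hK q (by omega)
  unfold QA at *
  cases hn : M.p.eval z.length with
  | zero => rfl
  | succ n =>
    rw [hn] at hag
    exact qset_agree n [] fun q hq => hag q (qset_mono M _ z n (n + 1) [] (by omega) hq)

/-- `T` bounds the number and the length of the questions of `M` on `⟨w, x⟩` -/
def Bd (M : Alg) (p T : Polynomial ℕ) : Prop :=
  ∀ (x w : List Bool) (A : Oracle), w.length ≤ p.eval x.length →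
    (QA M A (pairBits w x)).card ≤ T.eval x.length ∧
    ∀ q ∈ QA M A (pairBits w x), q.length ≤ T.eval x.length

theorem qset_len (M : Alg) {b : Polynomial ℕ} (hb : ∀ x a : List Bool,
    a.length ≤ M.p.eval x.length → (M.D (pairBits x a)).length ≤ b.eval x.length) (A : Oracle)
    (x : List Bool) : ∀ (n : ℕ) (a : List Bool), a.length + n ≤ M.p.eval x.length →
      ∀ q ∈ qset M A x n a, q.length ≤ b.eval x.length := by
  intro n
  induction n with
  | zero => intro a _ q hq; simp [qset] at hq
  | succ n ih =>
    intro a ha q hq
    rw [qset_succ] at hq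
    split_ifs at hq with h
    · rw [Finset.mem_insert] at hq
      rcases hq with rfl | hq
      · have h1 := hb x a (by omega)
        rw [List.length_tail]
        omega
      · exact ih _ (by rw [List.length_append, List.length_singleton]; omega) q hq
    · simp at hq

theorem exists_Bd (M : Alg) (p : Polynomial ℕ) : ∃ T, Bd M p T := by
  obtain ⟨b, hb⟩ := A2.act_bound M
  refine ⟨(M.p + b).comp (2 * p + Polynomial.X + 1), fun x w A hw => ?_⟩
  have h1 : (pairBits w x).length ≤ (2 * p + Polynomial.X + 1 : Polynomial ℕ).eval x.length := by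
    rw [A2.length_pairBits]
    simp only [Polynomial.eval_add, Polynomial.eval_mul, Polynomial.eval_ofNat,
      Polynomial.eval_X, Polynomial.eval_one]
    omega
  rw [Polynomial.eval_comp, Polynomial.eval_add]
  have h2 := eval_mono M.p h1
  have h3 := eval_mono b h1
  constructor
  · refine (qset_card M A _ _ _).trans ?_
    omega
  · intro q hq
    have h4 := qset_len M hb A (pairBits w x) (M.p.eval (pairBits w x).length) []
      (by simp) q hq
    omega

/-! ### The questions which are asked first -/

theorem cd_injective : Function.Injective cd := fun x y h => cd_inj x y h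

/-- the short strings -/
noncomputable def small (X : ℕ) : Finset (List Bool) :=
  (Finset.range (2 * X)).preimage cd cd_injective.injOn

theorem two_pow_le_cd : ∀ w : List Bool, 2 ^ w.length ≤ cd w
  | [] => le_rfl
  | b :: w => by
    have := two_pow_le_cd w
    simp only [cd, List.length_cons]
    rw [pow_succ]
    omega

theorem mem_small {X : ℕ} {w : List Bool} (h : 2 ^ w.length < X) : w ∈ small X := by
  unfold small
  rw [Finset.mem_preimage, Finset.mem_range]
  have := cd_lt w
  rw [pow_succ] at this
  omega

theorem small_len {X : ℕ} {w : List Bool} (h : w ∈ small X) : w.length ≤ 2 * X := by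
  unfold small at h
  rw [Finset.mem_preimage, Finset.mem_range] at h
  have h1 := two_pow_le_cd w
  have h2 : w.length < 2 ^ w.length := Nat.lt_two_pow_self
  omega

theorem small_card (X : ℕ) : (small X).card ≤ 2 * X := by
  have h : ((small X).image cd).card ≤ (Finset.range (2 * X)).card := by
    apply Finset.card_le_card
    intro n hn
    rw [Finset.mem_image] at hn
    obtain ⟨w, hw, rfl⟩ := hn
    unfold small at hw
    rwa [Finset.mem_preimage] at hw
  rwa [Finset.card_image_of_injective _ (fun x y h => cd_inj x y h), Finset.card_range] at h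

/-- the questions which are asked first -/
noncomputable def Qin (c : Cd) (t : ℕ) : Finset (List Bool) :=
  insert [] (c.D.biUnion fun e => (Finset.range (t + 1)).image (crt e) ∪
    ((small (2 ^ (c.g + 2) * t)).image (loc e true) ∪
      (small (2 ^ (c.g + 2) * t)).image (loc e false)))

theorem crt_mem_Qin {c : Cd} {t e n : ℕ} (he : e ∈ c.D) (hn : n ≤ t) : crt e n ∈ Qin c t := by
  unfold Qin
  refine Finset.mem_insert_of_mem (Finset.mem_biUnion.2 ⟨e, he, ?_⟩)
  exact Finset.mem_union_left _ (Finset.mem_image_of_mem _ (Finset.mem_range.2 (by omega)))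

theorem loc_mem_Qin {c : Cd} {t e : ℕ} {w : List Bool} (he : e ∈ c.D) (b : Bool)
    (hw : 2 ^ w.length < 2 ^ (c.g + 2) * t) : loc e b w ∈ Qin c t := by
  unfold Qin
  refine Finset.mem_insert_of_mem (Finset.mem_biUnion.2 ⟨e, he, Finset.mem_union_right _ ?_⟩)
  cases b with
  | true => exact Finset.mem_union_left _ (Finset.mem_image_of_mem _ (mem_small hw))
  | false => exact Finset.mem_union_right _ (Finset.mem_image_of_mem _ (mem_small hw))

/-- the bound for the number of the first questions -/
noncomputable def qc (c : Cd) : Polynomial ℕ :=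
  1 + Polynomial.C c.D.card * (Polynomial.X + 1 + 4 * (Polynomial.C (2 ^ (c.g + 2)) * Polynomial.X))

/-- the bound for the lengths of the first questions -/
noncomputable def ql (c : Cd) : Polynomial ℕ :=
  Polynomial.C (2 * c.D.sup id + 2) + (Polynomial.X + 2) ^ (c.D.sup id + 1) +
    2 * (Polynomial.C (2 ^ (c.g + 2)) * Polynomial.X)

theorem Qin_card (c : Cd) (t : ℕ) : (Qin c t).card ≤ (qc c).eval t := by
  unfold Qin
  refine (Finset.card_insert_le _ _).trans ?_
  have h1 : (c.D.biUnion fun e => (Finset.range (t + 1)).image (crt e) ∪
    ((small (2 ^ (c.g + 2) * t)).image (loc e true) ∪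
      (small (2 ^ (c.g + 2) * t)).image (loc e false))).card ≤
      c.D.card * (t + 1 + 4 * (2 ^ (c.g + 2) * t)) := by
    refine Finset.card_biUnion_le_card_mul _ _ _ fun e _ => ?_
    refine (Finset.card_union_le _ _).trans ?_
    have h2 : ((Finset.range (t + 1)).image (crt e)).card ≤ t + 1 := by
      simpa using (Finset.card_image_le (s := Finset.range (t + 1)) (f := crt e))
    have h3 := Finset.card_union_le ((small (2 ^ (c.g + 2) * t)).image (loc e true))
      ((small (2 ^ (c.g + 2) * t)).image (loc e false))
    have h4 : ∀ b, ((small (2 ^ (c.g + 2) * t)).image (loc e b)).card ≤ 2 * (2 ^ (c.g + 2) * t) :=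
      fun b => Finset.card_image_le.trans (small_card _)
    have h5 := h4 true
    have h6 := h4 false
    omega
  have h2 : (qc c).eval t = 1 + c.D.card * (t + 1 + 4 * (2 ^ (c.g + 2) * t)) := by
    unfold qc
    simp only [Polynomial.eval_add, Polynomial.eval_mul, Polynomial.eval_ofNat,
      Polynomial.eval_X, Polynomial.eval_one, Polynomial.eval_C]
  rw [h2]
  omega

theorem Qin_len {c : Cd} {t : ℕ} {q : List Bool} (h : q ∈ Qin c t) : q.length ≤ (ql c).eval t := by
  have h2 : (ql c).eval t = 2 * c.D.sup id + 2 + (t + 2) ^ (c.D.sup id + 1) +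
      2 * (2 ^ (c.g + 2) * t) := by
    unfold ql
    simp only [Polynomial.eval_add, Polynomial.eval_mul, Polynomial.eval_ofNat,
      Polynomial.eval_X, Polynomial.eval_C, Polynomial.eval_pow]
  rw [h2]
  unfold Qin at h
  rw [Finset.mem_insert] at h
  rcases h with rfl | h
  · simp
  · rw [Finset.mem_biUnion] at h
    obtain ⟨e, he, h⟩ := h
    have he' : e ≤ c.D.sup id := Finset.le_sup (f := id) he
    simp only [Finset.mem_union, Finset.mem_image, Finset.mem_range] at h
    rcases h with ⟨n, hn, rfl⟩ | ⟨w, hw, rfl⟩ | ⟨w, hw, rfl⟩
    · rw [crt_length]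
      have h3 : (n + 2) ^ (e + 1) ≤ (t + 2) ^ (c.D.sup id + 1) :=
        (Nat.pow_le_pow_left (by omega) _).trans (Nat.pow_le_pow_right (by omega) (by omega))
      omega
    · rw [loc_length]
      have := small_len hw
      omega
    · rw [loc_length]
      have := small_len hw
      omega

/-- **Changing few values.** The values of `B` on few strings may be replaced by those of another
oracle which satisfies the condition. -/
theorem merge {c : Cd} {B B' : Oracle} {t : ℕ} (hB : B ∈ H (up c)) (hB' : B' ∈ H c)
    (hq : ∀ q ∈ Qin c t, B' q = B q) (U : Finset (List Bool)) (hU : U.card ≤ t)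
    (hU' : ∀ q ∈ U, q.length ≤ t) : (fun q => if q ∈ U then B' q else B q) ∈ H c := by
  classical
  set B'' : Oracle := fun q => if q ∈ U then B' q else B q with hB''
  have hBc : B ∈ H c := H_up c hB
  have hor : ∀ q, B'' q = B q ∨ (q ∈ U ∧ B'' q = B' q) := by
    intro q
    rw [hB'']
    beta_reduce
    split_ifs with h
    · exact Or.inr ⟨h, rfl⟩
    · exact Or.inl rfl
  have hlow : ∀ q, q.length ≤ c.l → B'' q = B q := by
    intro q hl
    rcases hor q with h | ⟨_, h⟩
    · exact h
    · rw [h]
      exact H.agree hB' hBc hl
  have hcrt : ∀ e ∈ c.D, ∀ n, B'' (crt e n) = B (crt e n) := by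
    intro e he n
    rcases hor (crt e n) with h | ⟨h, h'⟩
    · exact h
    · rw [h']
      have h1 := hU' _ h
      rw [crt_length] at h1
      have h2 := lt_pow_succ e n
      exact hq _ (crt_mem_Qin he (by omega))
  refine ⟨fun q hl => ?_, fun e he n => ?_⟩
  · rw [hlow q hl]
    exact hBc.1 q hl
  · -- the region is not changed
    have hsame : (∀ (b : Bool) (w : List Bool), w.length = n → B (loc e b w) = B'' (loc e b w)) →
        Con 0 e n B'' ∧ (c.l < 2 * e + 2 + n → Con c.g e n B'') := fun h =>
      ⟨((hBc.2 e he n).1).congr (hcrt e he n).symm h,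
        fun hl => ((hBc.2 e he n).2 hl).congr (hcrt e he n).symm h⟩
    by_cases hl : c.l < 2 * e + 2 + n
    swap
    · refine hsame fun b w hw => (hlow _ ?_).symm
      rw [loc_length, hw]
      omega
    by_cases hn : n ≤ t
    swap
    · refine hsame fun b w hw => ?_
      rcases hor (loc e b w) with h | ⟨h, _⟩
      · exact h.symm
      · have h1 := hU' _ h
        rw [loc_length] at h1
        omega
    by_cases hX : 2 ^ n < 2 ^ (c.g + 2) * t
    · refine hsame fun b w hw => ?_
      rcases hor (loc e b w) with h | ⟨_, h⟩
      · exact h.symm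
      · rw [h]
        exact (hq _ (loc_mem_Qin he b (by rw [hw]; exact hX))).symm
    · have hs : B' (crt e n) = B (crt e n) := hq _ (crt_mem_Qin he hn)
      have key : Con c.g e n B'' := by
        refine ⟨fun w hw => ?_, ?_⟩
        · rw [hcrt e he]
          rcases hor (loc e (!B (crt e n)) w) with h | ⟨_, h⟩
          · rw [h]
            exact (hBc.2 e he n).1.1 w hw
          · rw [h, ← hs]
            exact (hB'.2 e he n).1.1 w hw
        · have h1 : (zer B'' e (B'' (crt e n)) n).card ≤ (zer B e (B (crt e n)) n).card + t := by
            rw [hcrt e he]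
            set v := B (crt e n) with hv
            set W : Finset (Fin n → Bool) := univ.filter (fun w => loc e v (List.ofFn w) ∈ U)
              with hW
            have h2 : W.card ≤ U.card := by
              refine Finset.card_le_card_of_injOn (fun w => loc e v (List.ofFn w)) ?_ ?_
              · intro w hw
                rw [hW, Finset.coe_filter] at hw
                exact hw.2
              · intro w _ w' _ h
                exact List.ofFn_injective (loc_inj h).2.2
            have h3 : zer B'' e v n ⊆ zer B e v n ∪ W := by
              intro w hw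
              unfold zer at hw
              rw [Finset.mem_filter] at hw
              rw [Finset.mem_union]
              rcases hor (loc e v (List.ofFn w)) with h | ⟨h, _⟩
              · left
                unfold zer
                rw [Finset.mem_filter, ← h]
                exact hw
              · right
                rw [hW, Finset.mem_filter]
                exact ⟨Finset.mem_univ _, h⟩
            exact (Finset.card_le_card h3).trans ((Finset.card_union_le _ _).trans (by omega))
          have h2 := ((hB.2 e he n).2 hl).2
          have h3 : 2 ^ (c.g + 1 + 1) = 2 * 2 ^ (c.g + 1) := pow_succ' _ _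
          have h4 : (up c).g = c.g + 1 := rfl
          rw [h4, h3] at h2
          have h5 : 2 ^ (c.g + 2) = 2 * 2 ^ (c.g + 1) := pow_succ' _ _
          rw [h5] at hX
          have h6 : 2 ^ (c.g + 1) * (zer B'' e (B'' (crt e n)) n).card ≤
              2 ^ (c.g + 1) * (zer B e (B (crt e n)) n).card + 2 ^ (c.g + 1) * t := by
            rw [← Nat.mul_add]
            exact Nat.mul_le_mul_left _ h1
          have h7 : 2 * 2 ^ (c.g + 1) * (zer B e (B (crt e n)) n).card =
            2 * (2 ^ (c.g + 1) * (zer B e (B (crt e n)) n).card) := by ring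
          have h8 : 2 * 2 ^ (c.g + 1) * t = 2 * (2 ^ (c.g + 1) * t) := by ring
          omega
      exact ⟨key.mono (Nat.zero_le _), fun _ => key⟩

end Pool.Agent.L0h33.UD
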