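import Pool.Agent.H620R2.GaugeX.Defs
import Pool.Agent.TH678.ETH.Defs

/-!
# Query complexity relative to an oracle, and zero-error computations with two questions

(Continues `Pool.Agent.H620R2.Gauge.Defs`, where the classes relative to an oracle are defined.)
-/

set_option autoImplicit false

namespace Pool.Agent.L0h33.UD

open Pool.Agent.NPC Pool.Agent.H620R2.Gauge Pool.Agent.TH678.ETH

/-- The output of the oracle algorithm with the next action function `D`, with oracle `A` and on
input `x`, within `n` further rounds, when the answers received so far are `a`; `none` if it does
not stop. The next action `D ⟨x, a⟩` is `false :: q` if the algorithm asks whether `q` is in the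
oracle, and `true :: z` (or the empty string) if it stops with output `z` (or with the empty
output). (This is `Alg.run` for an arbitrary function `D`.) -/
def ask (D : List Bool → List Bool) (A : Oracle) (x : List Bool) :
    ℕ → List Bool → Option (List Bool)
  | 0, _ => none
  | n + 1, a =>
    match D (pairBits x a) with
    | [] => some []
    | true :: z => some z
    | false :: q => ask D A x n (a ++ [A q])

/-- The language `L` is decided relative to `A` by a deterministic algorithm which, on inputs `x`
of length `n`, asks less than `C (n + 1) ^ c` questions and gets true answers only to the questions
of at most `C (n + 1) ^ c` bits, for some constant `C`. (The answer to a longer question is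
always `no`.) The time spent between the questions is not bounded: `D` is an arbitrary computable
function. In particular all languages in `DTIME(n ^ c)` relative to `A` have this property. -/
def InQ (c : ℕ) (A : Oracle) (L : Set (List Bool)) : Prop :=
  ∃ (D : List Bool → List Bool) (C : ℕ), Computable D ∧ ∀ x : List Bool, ∃ z : List Bool,
    ask D (upTo (C * (x.length + 1) ^ c) A) x (C * (x.length + 1) ^ c) [] = some z ∧
      (x ∈ L ↔ z = [true])

/-- The probability that `u ++ w` is in the oracle `A`, for a uniformly random string `w` of
length `n`. -/
noncomputable def hitPr (A : Oracle) (u : List Bool) (n : ℕ) : ℝ :=
  (Nat.card {w : Fin n → Bool // A (u ++ List.ofFn w) = true} : ℝ) / 2 ^ n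

/-- The language `L` is decided with zero error by a randomized algorithm which on input `x` only
chooses a random string `w` of length `|x|` and asks whether `u ++ w` and whether `v ++ w` are in
the oracle, where `u` and `v` are fixed strings: if `x` is in `L`, then the answer to the first
question is `yes` with probability at least `1/2` and the answer to the second one is always `no`;
if `x` is not in `L`, then it is the other way round. (So `L` is in zero-error probabilistic linear
time relative to `A`.) -/
def ZLin (A : Oracle) (L : Set (List Bool)) : Prop :=
  ∃ u v : List Bool, ∀ x : List Bool,
    (x ∈ L → 1 / 2 ≤ hitPr A u x.length ∧ hitPr A v x.length = 0) ∧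
    (x ∉ L → 1 / 2 ≤ hitPr A v x.length ∧ hitPr A u x.length = 0)

end Pool.Agent.L0h33.UD
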