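import Pool.Agent.L0h33.UD.Defs
import Pool.Agent.H620R2.Gauge.C
import Pool.Agent.Y626.WC.Self

/-!
# The conditions
-/

set_option autoImplicit false

namespace Pool.Agent.L0h33.UD

open Pool.Agent.NPC Pool.Agent.H620R2.Gauge Finset

/-- the strings of the region of the key `e` on the side `b` -/
def loc (e : ℕ) (b : Bool) (w : List Bool) : List Bool :=
  List.replicate (2 * e) true ++ false :: b :: w

/-- the certificate for the length `n` and the key `e` -/
def crt (e n : ℕ) : List Bool :=
  List.replicate (2 * e + 1) true ++ false :: List.replicate ((n + 2) ^ (e + 1)) true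

theorem loc_length (e : ℕ) (b : Bool) (w : List Bool) :
    (loc e b w).length = 2 * e + 2 + w.length := by
  unfold loc
  simp only [List.length_append, List.length_replicate, List.length_cons]
  omega

theorem crt_length (e n : ℕ) : (crt e n).length = 2 * e + 2 + (n + 2) ^ (e + 1) := by
  unfold crt
  simp only [List.length_append, List.length_replicate, List.length_cons]
  omega

theorem lt_pow_succ (e n : ℕ) : n + 1 < (n + 2) ^ (e + 1) := by
  calc n + 1 < (n + 2) ^ 1 := by rw [pow_one]; omega
    _ ≤ (n + 2) ^ (e + 1) := Nat.pow_le_pow_right (by omega) (by omega)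

theorem loc_inj {e e' : ℕ} {b b' : Bool} {w w' : List Bool} (h : loc e b w = loc e' b' w') :
    e = e' ∧ b = b' ∧ w = w' := by
  obtain ⟨h1, h2⟩ := CC.rep_inj _ _ _ _ h
  rw [List.cons.injEq] at h2
  exact ⟨by omega, h2.1, h2.2⟩

theorem crt_inj {e e' n n' : ℕ} (h : crt e n = crt e' n') : e = e' ∧ n = n' := by
  obtain ⟨h1, h2⟩ := CC.rep_inj _ _ _ _ h
  have h3 : e = e' := by omega
  subst h3
  refine ⟨rfl, ?_⟩
  have h4 := congrArg List.length h2
  rw [List.length_replicate, List.length_replicate] at h4
  have h5 := Nat.pow_left_injective (n := e + 1) (by omega) h4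
  simpa using h5

theorem loc_ne_crt (e e' n : ℕ) (b : Bool) (w : List Bool) : loc e b w ≠ crt e' n := by
  intro h
  obtain ⟨h1, h2⟩ := CC.rep_inj _ _ _ _ h
  omega

/-- the zeros of the oracle in a region -/
def zer (B : Oracle) (e : ℕ) (b : Bool) (n : ℕ) : Finset (Fin n → Bool) :=
  univ.filter (fun w => B (loc e b (List.ofFn w)) = false)

/-- The constraint at level `n` for the key `e`: one side of the region is empty, and the other
one, the side given by the certificate, contains only few zeros. -/
def Con (g e n : ℕ) (B : Oracle) : Prop :=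
  (∀ w : List Bool, w.length = n → B (loc e (!B (crt e n)) w) = false) ∧
    2 ^ (g + 1) * (zer B e (B (crt e n)) n).card ≤ 2 ^ n

theorem zer_congr {B B' : Oracle} {e n : ℕ} (b : Bool)
    (h : ∀ w : List Bool, w.length = n → B (loc e b w) = B' (loc e b w)) :
    zer B e b n = zer B' e b n := by
  unfold zer
  refine Finset.filter_congr fun w _ => ?_
  rw [h _ (List.length_ofFn ..)]

theorem Con.congr {B B' : Oracle} {g e n : ℕ} (h : Con g e n B) (h0 : B (crt e n) = B' (crt e n))
    (h1 : ∀ (b : Bool) (w : List Bool), w.length = n → B (loc e b w) = B' (loc e b w)) :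
    Con g e n B' := by
  obtain ⟨h2, h3⟩ := h
  refine ⟨fun w hw => ?_, ?_⟩
  · rw [← h0, ← h1 _ w hw]
    exact h2 w hw
  · rw [← h0, ← zer_congr _ (h1 _)]
    exact h3

theorem Con.mono {B : Oracle} {g g' e n : ℕ} (hg : g' ≤ g) (h : Con g e n B) : Con g' e n B := by
  refine ⟨h.1, le_trans (Nat.mul_le_mul_right _ (Nat.pow_le_pow_right (by omega) (by omega))) h.2⟩

/-- the dense side contains an element -/
theorem Con.exists {B : Oracle} {g e n : ℕ} (h : Con g e n B) :
    ∃ w : List Bool, w.length = n ∧ B (loc e (B (crt e n)) w) = true := by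
  by_contra hcon
  push Not at hcon
  have h1 : zer B e (B (crt e n)) n = univ := by
    unfold zer
    rw [Finset.filter_eq_self]
    intro w _
    simpa using hcon (List.ofFn w) (List.length_ofFn ..)
  have h2 := h.2
  rw [h1, Finset.card_univ, Fintype.card_fun, Fintype.card_bool, Fintype.card_fin] at h2
  have h3 : 2 * 2 ^ n ≤ 2 ^ (g + 1) * 2 ^ n := by
    apply Nat.mul_le_mul_right
    calc 2 = 2 ^ 1 := rfl
      _ ≤ 2 ^ (g + 1) := Nat.pow_le_pow_right (by omega) (by omega)
  have h4 : 0 < 2 ^ n := Nat.two_pow_pos n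
  omega

/-- if the regions agree, then the certificates agree -/
theorem Con.status {B B' : Oracle} {g g' e n : ℕ} (h : Con g e n B) (h' : Con g' e n B')
    (h1 : ∀ (b : Bool) (w : List Bool), w.length = n → B (loc e b w) = B' (loc e b w)) :
    B (crt e n) = B' (crt e n) := by
  by_contra hne
  obtain ⟨w, hw, h2⟩ := h.exists
  have h3 := h'.1 w hw
  have h4 : (!B' (crt e n)) = B (crt e n) := by
    cases h5 : B (crt e n) <;> cases h6 : B' (crt e n) <;> simp_all
  rw [h4, ← h1 _ w hw, h2] at h3
  exact absurd h3 (by simp)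

/-- A condition: all strings of at most `l` bits are decided, `F` contains those which are in the
oracle; `D` is the set of the declared keys, `g` is the present grade. -/
structure Cd : Type where
  /-- the length -/
  l : ℕ
  /-- the strings in the oracle -/
  F : Finset (List Bool)
  /-- the keys -/
  D : Finset ℕ
  /-- the grade -/
  g : ℕ

/-- the oracles which satisfy the condition -/
def H (c : Cd) : Set Oracle :=
  {B | (∀ q : List Bool, q.length ≤ c.l → (B q = true ↔ q ∈ c.F)) ∧
    ∀ e ∈ c.D, ∀ n, Con 0 e n B ∧ (c.l < 2 * e + 2 + n → Con c.g e n B)}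

theorem H.agree {c : Cd} {B B' : Oracle} (h : B ∈ H c) (h' : B' ∈ H c) {q : List Bool}
    (hq : q.length ≤ c.l) : B q = B' q := by
  rw [Bool.eq_iff_iff, h.1 q hq, h'.1 q hq]

/-- the condition with a greater grade -/
def up (c : Cd) : Cd := ⟨c.l, c.F, c.D, c.g + 1⟩

theorem H_up (c : Cd) : H (up c) ⊆ H c := by
  rintro B ⟨h1, h2⟩
  exact ⟨h1, fun e he n => ⟨(h2 e he n).1, fun hl => ((h2 e he n).2 hl).mono (Nat.le_succ _)⟩⟩

open Classical in
/-- raising the grade -/
theorem exists_up {c : Cd} {B : Oracle} (hB : B ∈ H c) : ∃ B', B' ∈ H (up c) := by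
  set P : List Bool → Prop := fun q => ∃ e ∈ c.D, ∃ b w, q = loc e b w ∧ c.l < q.length with hP
  set B' : Oracle := fun q => if P q then
    decide (∃ e b w, q = loc e b w ∧ b = B (crt e w.length)) else B q with hB'
  have hloc : ∀ e ∈ c.D, ∀ b w, c.l < 2 * e + 2 + w.length →
      B' (loc e b w) = decide (b = B (crt e w.length)) := by
    intro e he b w hl
    rw [hB']
    beta_reduce
    rw [if_pos ⟨e, he, b, w, rfl, by rw [loc_length]; exact hl⟩]
    rw [decide_eq_decide]
    constructor
    · rintro ⟨e', b', w', h1, h2⟩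
      obtain ⟨rfl, rfl, rfl⟩ := loc_inj h1
      exact h2
    · intro h
      exact ⟨e, b, w, rfl, h⟩
  have hlow : ∀ q, q.length ≤ c.l → B' q = B q := by
    intro q hq
    rw [hB']
    beta_reduce
    rw [if_neg]
    rintro ⟨e, he, b, w, h1, h2⟩
    omega
  have hcrt : ∀ e n, B' (crt e n) = B (crt e n) := by
    intro e n
    rw [hB']
    beta_reduce
    rw [if_neg]
    rintro ⟨e', he, b, w, h1, h2⟩
    exact loc_ne_crt _ _ _ _ _ h1.symm
  refine ⟨B', fun q hq => ?_, fun e he n => ?_⟩
  · rw [hlow q hq]
    exact hB.1 q hq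
  · by_cases hl : c.l < 2 * e + 2 + n
    · have key : Con (c.g + 1) e n B' := by
        refine ⟨fun w hw => ?_, ?_⟩
        · rw [hcrt, hloc e he _ w (by rw [hw]; exact hl), hw]
          cases B (crt e n) <;> rfl
        · have h1 : zer B' e (B' (crt e n)) n = ∅ := by
            unfold zer
            rw [Finset.filter_eq_empty_iff]
            intro w _
            rw [hcrt, hloc e he _ _ (by rw [List.length_ofFn]; exact hl), List.length_ofFn]
            simp
          rw [h1]
          simp
      exact ⟨key.mono (Nat.zero_le _), fun _ => key⟩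
    · refine ⟨((hB.2 e he n).1).congr (hcrt e n).symm fun b w hw => ?_, fun h => absurd h hl⟩
      rw [hlow]
      rw [loc_length, hw]
      omega

open Classical in
/-- the condition which fixes the oracle up to length `l` -/
noncomputable def fix (c : Cd) (B : Oracle) (l : ℕ) : Cd :=
  ⟨l, ((List.finite_length_le Bool l).toFinset).filter (fun q => B q = true), c.D, c.g⟩

theorem fix_mem {c : Cd} {B : Oracle} (hB : B ∈ H c) {l : ℕ} (hl : c.l ≤ l) :
    B ∈ H (fix c B l) := by
  refine ⟨fun q hq => ?_, fun e he n => ⟨(hB.2 e he n).1, fun h => (hB.2 e he n).2 ?_⟩⟩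
  · unfold fix
    rw [Finset.mem_filter, Set.Finite.mem_toFinset]
    exact ⟨fun h => ⟨hq, h⟩, fun h => h.2⟩
  · change l < _ at h
    omega

theorem fix_sub {c : Cd} {B : Oracle} (hB : B ∈ H c) {l : ℕ} (hl : c.l ≤ l) :
    H (fix c B l) ⊆ H c := by
  intro B' hB'
  have hBf := fix_mem hB hl
  have hag : ∀ q : List Bool, q.length ≤ l → B' q = B q := fun q hq =>
    H.agree hB' hBf hq
  refine ⟨fun q hq => ?_, fun e he n => ⟨(hB'.2 e he n).1, fun h => ?_⟩⟩
  · rw [hag q (by omega)]
    exact hB.1 q hq
  · by_cases h2 : l < 2 * e + 2 + n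
    · exact (hB'.2 e he n).2 h2
    · have hreg : ∀ (b : Bool) (w : List Bool), w.length = n → B (loc e b w) = B' (loc e b w) := by
        intro b w hw
        rw [hag]
        rw [loc_length, hw]
        omega
      exact ((hB.2 e he n).2 h).congr ((hB.2 e he n).1.status (hB'.2 e he n).1 hreg) hreg

/-- the condition with one more key -/
def add (c : Cd) (e : ℕ) : Cd := ⟨c.l, c.F, insert e c.D, c.g⟩

theorem add_sub (c : Cd) (e : ℕ) : H (add c e) ⊆ H c := by
  rintro B ⟨h1, h2⟩
  exact ⟨h1, fun e' he n => h2 e' (Finset.mem_insert_of_mem he) n⟩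

open Classical in
theorem exists_add {c : Cd} {B : Oracle} (hB : B ∈ H c) (N : ℕ) :
    ∃ e ≥ N, ∃ B', B' ∈ H (add c e) := by
  set e := N + c.l + c.D.sup id + 1 with he
  have heD : ∀ e' ∈ c.D, e' ≠ e := by
    intro e' he' h
    have h1 := Finset.le_sup (f := id) he'
    simp only [id] at h1
    omega
  set B' : Oracle := fun q => if ∃ b w, q = loc e b w then
    decide (∃ w, q = loc e false w) else if ∃ n, q = crt e n then false else B q with hB'
  have hloc : ∀ b w, B' (loc e b w) = !b := by
    intro b w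
    rw [hB']
    beta_reduce
    rw [if_pos ⟨b, w, rfl⟩]
    cases b with
    | false => simp only [Bool.not_false, decide_eq_true_eq]; exact ⟨w, rfl⟩
    | true =>
      simp only [Bool.not_true, decide_eq_false_iff_not]
      rintro ⟨w', h⟩
      exact absurd (loc_inj h).2.1 (by simp)
  have hcrt : ∀ n, B' (crt e n) = false := by
    intro n
    rw [hB']
    beta_reduce
    rw [if_neg, if_pos ⟨n, rfl⟩]
    rintro ⟨b, w, h⟩
    exact loc_ne_crt _ _ _ _ _ h.symm
  have hloc' : ∀ e' ≠ e, ∀ b w, B' (loc e' b w) = B (loc e' b w) := by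
    intro e' he' b w
    rw [hB']
    beta_reduce
    rw [if_neg, if_neg]
    · rintro ⟨n, h⟩
      exact loc_ne_crt _ _ _ _ _ h
    · rintro ⟨b', w', h⟩
      exact he' (loc_inj h).1
  have hcrt' : ∀ e' ≠ e, ∀ n, B' (crt e' n) = B (crt e' n) := by
    intro e' he' n
    rw [hB']
    beta_reduce
    rw [if_neg, if_neg]
    · rintro ⟨n', h⟩
      exact he' (crt_inj h).1
    · rintro ⟨b', w', h⟩
      exact loc_ne_crt _ _ _ _ _ h.symm
  have hlow : ∀ q, q.length ≤ c.l → B' q = B q := by
    intro q hq
    rw [hB']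
    beta_reduce
    rw [if_neg, if_neg]
    · rintro ⟨n, rfl⟩
      rw [crt_length] at hq
      omega
    · rintro ⟨b, w, rfl⟩
      rw [loc_length] at hq
      omega
  refine ⟨e, by omega, B', fun q hq => ?_, fun e' he' n => ?_⟩
  · rw [hlow q hq]
    exact hB.1 q hq
  · rcases Finset.mem_insert.1 he' with rfl | he'
    · have key : ∀ g, Con g e n B' := by
        intro g
        refine ⟨fun w _ => by rw [hcrt, hloc]; rfl, ?_⟩
        have h1 : zer B' e (B' (crt e n)) n = ∅ := by
          unfold zer
          rw [Finset.filter_eq_empty_iff]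
          intro w _
          rw [hcrt, hloc]
          simp
        rw [h1]
        simp
      exact ⟨key _, fun _ => key _⟩
    · have hne := heD e' he'
      refine ⟨((hB.2 e' he' n).1).congr (hcrt' e' hne n).symm fun b w _ =>
        (hloc' e' hne b w).symm, fun h => ((hB.2 e' he' n).2 h).congr (hcrt' e' hne n).symm
        fun b w _ => (hloc' e' hne b w).symm⟩

end Pool.Agent.L0h33.UD
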