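import Pool.Agent.L0h33.UD.Stage
import Pool.Agent.H639R2.NTP.Comp
import Pool.Agent.H620R2.Gauge.Upper

/-!
# The theorem
-/

set_option autoImplicit false

namespace Pool.Agent.L0h33.UD

open Pool.Agent.NPC Pool.Agent.H620R2.Gauge Pool.Agent.TH678.GC Pool.Agent.Y626.WC
  Pool.Agent.TH678.EL Pool.Agent.TH678.ETH Finset

instance : Countable Cd := by
  have h : Function.Injective (fun c : Cd => (c.l, c.F, c.D, c.g)) := by
    rintro ⟨a, b, c, d⟩ ⟨a', b', c', d'⟩ h
    simp only [Prod.mk.injEq] at h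
    obtain ⟨rfl, rfl, rfl, rfl⟩ := h
    rfl
  exact h.countable

instance : Countable {D : List Bool → List Bool // Computable D} := by
  classical
  have h : ∀ D : {D : List Bool → List Bool // Computable D}, ∃ c : Nat.Partrec.Code,
      ∀ x : List Bool, Encodable.encode (D.1 x) ∈ c.eval (Encodable.encode x) := by
    rintro ⟨D, hD⟩
    have h1 : Nat.Partrec _ := hD
    obtain ⟨c, hc⟩ := Nat.Partrec.Code.exists_code.1 h1
    refine ⟨c, fun x => ?_⟩
    rw [hc]
    simp
  choose c hc using h
  have hinj : Function.Injective c := by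
    rintro ⟨D, hD⟩ ⟨D', hD'⟩ h
    apply Subtype.ext
    funext x
    have h1 := hc ⟨D, hD⟩ x
    have h2 := hc ⟨D', hD'⟩ x
    rw [h] at h1
    exact Encodable.encode_injective (Part.mem_unique h1 h2)
  exact hinj.countable

/-- the language of the key `e` -/
def LL (B : Oracle) (e : ℕ) : Set (List Bool) := {x | B (crt e x.length) = true}

/-- the requirements -/
inductive Rq : Type
  | key : ℕ → Rq
  | rp : Alg → Polynomial ℕ → Rq
  | np : Alg → Alg → Polynomial ℕ → Polynomial ℕ → Rq
  | qq : (s : {s : ℕ × ℕ // s.2 ≤ s.1}) → {D : List Bool → List Bool // Computable D} → ℕ → Rq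

/-- the requirement belonging to a name -/
def Rq.P (K : Oracle) : Rq → Cd → Prop
  | Rq.key n => fun c => ∃ e ∈ c.D, n ≤ e
  | Rq.rp M p => ReqRP K M p
  | Rq.np M M' p p' => ReqNP K M M' p p'
  | Rq.qq s D C => ReqQ K s.1.1 s.1.2 D.1 C

theorem Rq.isReq (K : Oracle) : ∀ r : Rq, IsReq (r.P K)
  | Rq.key n => req_key n
  | Rq.rp M p => req_RP K M p
  | Rq.np M M' p p' => req_NP K M M' p p'
  | Rq.qq s D C => req_Q K s.1.1 s.1.2 s.2 D.1 C

instance : Countable Rq := by
  have h1 := CC.poly_countable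
  have h : Function.Surjective (fun s : ℕ ⊕ (Alg × Polynomial ℕ) ⊕
      (Alg × Alg × Polynomial ℕ × Polynomial ℕ) ⊕
      ({s : ℕ × ℕ // s.2 ≤ s.1} × {D : List Bool → List Bool // Computable D} × ℕ) => match s with
    | Sum.inl n => Rq.key n
    | Sum.inr (Sum.inl (M, p)) => Rq.rp M p
    | Sum.inr (Sum.inr (Sum.inl (M, M', p, p'))) => Rq.np M M' p p'
    | Sum.inr (Sum.inr (Sum.inr (e, D, C))) => Rq.qq e D C) := by
    rintro (n | ⟨M, p⟩ | ⟨M, M', p, p'⟩ | ⟨e, D, C⟩)
    · exact ⟨Sum.inl n, rfl⟩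
    · exact ⟨Sum.inr (Sum.inl (M, p)), rfl⟩
    · exact ⟨Sum.inr (Sum.inr (Sum.inl (M, M', p, p'))), rfl⟩
    · exact ⟨Sum.inr (Sum.inr (Sum.inr (e, D, C))), rfl⟩
  exact h.countable

theorem exists_idx : ∃ g : ℕ → Idx, Function.Surjective g := by
  have h1 := CC.poly_countable
  have hne : Nonempty Alg := by
    obtain ⟨M, _⟩ := IsFP.of_poly (A := fun _ => false) (F := fun x => x) NPC.Poly.id
    exact ⟨M⟩
  have hne2 : Nonempty Cd := ⟨⟨0, ∅, ∅, 0⟩⟩
  exact exists_surjective_nat _

/-- `L` is decided by the machine -/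
theorem IsRP.eq_Lg {A : Oracle} {L : Set (List Bool)} (h : IsRP A L) :
    ∃ (M : Alg) (p : Polynomial ℕ), L = Lg M p true A ∧
      ∀ x, cnt M p A x = 0 ∨ 2 ^ p.eval x.length ≤ 2 * cnt M p A x := by
  classical
  obtain ⟨V, p, ⟨M, hM⟩, hV⟩ := h
  have hc : ∀ x, accPr V (p.eval x.length) x = (cnt M p A x : ℝ) / 2 ^ p.eval x.length := by
    intro x
    unfold accPr cnt
    rw [Nat.card_eq_fintype_card, Fintype.card_subtype]
    congr 3
    refine Finset.filter_congr fun w _ => ?_
    rw [hM, Option.some.injEq]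
  have key : ∀ x, (x ∈ L → 2 ^ p.eval x.length ≤ 2 * cnt M p A x) ∧
      (x ∉ L → cnt M p A x = 0) := by
    intro x
    have h0 : (0 : ℝ) < 2 ^ p.eval x.length := by positivity
    obtain ⟨h1, h2⟩ := hV x
    rw [hc] at h1 h2
    constructor
    · intro hx
      have h3 := h1 hx
      rw [div_le_div_iff₀ (by norm_num) h0] at h3
      have h4 : (2 : ℝ) ^ p.eval x.length ≤ 2 * cnt M p A x := by linarith
      exact_mod_cast h4
    · intro hx
      have h3 := h2 hx
      rw [div_eq_zero_iff] at h3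
      rcases h3 with h3 | h3
      · exact_mod_cast h3
      · exact absurd h3 h0.ne'
  refine ⟨M, p, ?_, fun x => ?_⟩
  · ext x
    constructor
    · intro hx
      by_contra hcon
      have h1 := (key x).1 hx
      rw [cnt_eq_zero.2 hcon] at h1
      have := Nat.two_pow_pos (p.eval x.length)
      omega
    · intro hx
      by_contra hcon
      exact cnt_eq_zero.1 ((key x).2 hcon) hx
  · by_cases hx : x ∈ L
    · exact Or.inr ((key x).1 hx)
    · exact Or.inl ((key x).2 hx)

theorem IsNP.eq_Lg {A : Oracle} {L : Set (List Bool)} (h : IsNP A L) :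
    ∃ (M : Alg) (p : Polynomial ℕ), L = Lg M p false A := by
  obtain ⟨V, p, ⟨M, hM⟩, hV⟩ := h
  refine ⟨M, p, ?_⟩
  ext x
  rw [hV x]
  unfold Lg okw
  simp only [Bool.false_eq_true, false_implies, and_true, Set.mem_ofPred_eq]
  exact exists_congr fun w => and_congr_right fun _ => by rw [hM, Option.some.injEq]

theorem hitPr_eq (A : Oracle) (u : List Bool) (n : ℕ) : hitPr A u n =
    ((univ.filter (fun w : Fin n → Bool => A (u ++ List.ofFn w) = true)).card : ℝ) / 2 ^ n := by
  classical
  unfold hitPr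
  rw [Nat.card_eq_fintype_card, Fintype.card_subtype]

/-- the prefix of the questions about the region -/
def pf (e : ℕ) (b : Bool) : List Bool := false :: (List.replicate (2 * e) true ++ [false, b])

theorem pf_append (e : ℕ) (b : Bool) (w : List Bool) : pf e b ++ w = false :: loc e b w := by
  unfold pf loc
  simp

theorem hitPr_pf (B K : Oracle) (e : ℕ) (b : Bool) (n : ℕ) : hitPr (join B K) (pf e b) n =
    1 - ((zer B e b n).card : ℝ) / 2 ^ n := by
  classical
  rw [hitPr_eq]
  have h1 : (univ.filter (fun w : Fin n → Bool => join B K (pf e b ++ List.ofFn w) = true)).card +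
      (zer B e b n).card = 2 ^ n := by
    have h2 : univ.filter (fun w : Fin n → Bool => join B K (pf e b ++ List.ofFn w) = true) =
        univ.filter (fun w : Fin n → Bool => ¬ B (loc e b (List.ofFn w)) = false) := by
      refine Finset.filter_congr fun w _ => ?_
      rw [pf_append]
      simp [join]
    rw [h2]
    unfold zer
    have h3 := Finset.card_filter_add_card_filter_not (s := (univ : Finset (Fin n → Bool)))
      (fun w => B (loc e b (List.ofFn w)) = false)
    rw [Finset.card_univ, Fintype.card_fun, Fintype.card_bool, Fintype.card_fin] at h3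
    omega
  have h0 : (0 : ℝ) < 2 ^ n := by positivity
  have h4 : ((univ.filter (fun w : Fin n → Bool =>
      join B K (pf e b ++ List.ofFn w) = true)).card : ℝ) = 2 ^ n - (zer B e b n).card := by
    rw [eq_sub_iff_add_eq]
    exact_mod_cast h1
  rw [h4, sub_div, div_self h0.ne']

theorem zlin_of {B K : Oracle} {e : ℕ} (h : ∀ n, Con 0 e n B) : ZLin (join B K) (LL B e) := by
  have key : ∀ n, 1 / 2 ≤ hitPr (join B K) (pf e (B (crt e n))) n ∧
      hitPr (join B K) (pf e (!B (crt e n))) n = 0 := by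
    intro n
    obtain ⟨h1, h2⟩ := h n
    have h0 : (0 : ℝ) < 2 ^ n := by positivity
    constructor
    · rw [hitPr_pf]
      have h3 : ((zer B e (B (crt e n)) n).card : ℝ) / 2 ^ n ≤ 1 / 2 := by
        rw [div_le_div_iff₀ h0 (by norm_num)]
        have h4 : (2 : ℝ) * (zer B e (B (crt e n)) n).card ≤ 2 ^ n := by
          exact_mod_cast h2
        linarith
      linarith
    · rw [hitPr_pf]
      have h3 : zer B e (!B (crt e n)) n = univ := by
        unfold zer
        rw [Finset.filter_eq_self]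
        intro w _
        exact h1 _ (List.length_ofFn ..)
      rw [h3, Finset.card_univ, Fintype.card_fun, Fintype.card_bool, Fintype.card_fin]
      push_cast
      rw [div_self h0.ne', sub_self]
  refine ⟨pf e true, pf e false, fun x => ⟨fun hx => ?_, fun hx => ?_⟩⟩
  · have h1 : B (crt e x.length) = true := hx
    have h2 := key x.length
    rw [h1] at h2
    exact h2
  · have h1 : B (crt e x.length) = false := by
      simpa [LL] using hx
    have h2 := key x.length
    rw [h1] at h2
    exact h2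

theorem IsP.isRP {A : Oracle} {L : Set (List Bool)} (h : IsP A L) : IsRP A L := by
  classical
  obtain ⟨V, hV, hL⟩ := h
  refine ⟨fun y => V (unpair y).2, 0, IsFP.comp hV (IsFP.of_poly (Poly.snd poly_unpair)),
    fun x => ?_⟩
  have hc : accPr (fun y => V (unpair y).2) ((0 : Polynomial ℕ).eval x.length) x =
      if x ∈ L then 1 else 0 := by
    unfold accPr
    simp only [unpair_pairBits, Polynomial.eval_zero, pow_zero, div_one]
    split_ifs with hx
    · rw [Nat.card_eq_fintype_card, Fintype.card_subtype,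
        Finset.filter_true_of_mem (fun _ _ => (hL x).1 hx), Finset.card_univ]
      simp
    · rw [Nat.card_eq_fintype_card, Fintype.card_subtype,
        Finset.filter_false_of_mem (fun _ _ h => hx ((hL x).2 h))]
      simp
  rw [hc]
  constructor
  · intro hx
    rw [if_pos hx]
    norm_num
  · intro hx
    rw [if_neg hx]

theorem eval_le_pow (P : Polynomial ℕ) : ∃ k C : ℕ, ∀ n, P.eval n ≤ C * (n + 1) ^ k := by
  refine ⟨P.natDegree, ∑ i ∈ Finset.range (P.natDegree + 1), P.coeff i, fun n => ?_⟩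
  rw [Polynomial.eval_eq_sum_range, Finset.sum_mul]
  refine Finset.sum_le_sum fun i hi => Nat.mul_le_mul_left _ ?_
  rw [Finset.mem_range] at hi
  exact (Nat.pow_le_pow_left (Nat.le_succ n) i).trans (Nat.pow_le_pow_right (by omega) (by omega))

theorem ask_eq_run (M : Alg) (u : List Bool) (A : Oracle) (x : List Bool) :
    ∀ (n : ℕ) (a : List Bool),
    ask (fun y => M.D (pairBits (pairBits u (unpair y).1) (unpair y).2)) A x n a =
      M.run A (pairBits u x) n a := by
  intro n
  induction n with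
  | zero => intro a; rfl
  | succ n ih =>
    intro a
    rw [ask, Alg.run]
    simp only [unpair_pairBits]
    rcases M.D (pairBits (pairBits u x) a) with _ | ⟨b, q⟩
    · rfl
    · cases b
      · exact ih _
      · rfl

theorem inQ_of_isFP {A : Oracle} {V : List Bool → List Bool} (hV : IsFP A V) : ∃ k : ℕ,
    ∀ (u : List Bool) (L : Set (List Bool)), (∀ x, x ∈ L ↔ V (pairBits u x) = [true]) →
      InQ k A L := by
  obtain ⟨M, hM⟩ := hV
  obtain ⟨b, hb⟩ := A2.act_bound M
  obtain ⟨k, C, hkC⟩ := eval_le_pow (M.p + b)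
  refine ⟨k, fun u L hL => ?_⟩
  refine ⟨fun y => M.D (pairBits (pairBits u (unpair y).1) (unpair y).2),
    C * (2 * u.length + 2) ^ k, ?_, fun x => ?_⟩
  · refine Pool.Agent.H639R2.NTP.polyTime_computable (Pool.Agent.H622R2.polyTime_of_poly_list ?_)
    exact (Pool.Agent.H622R2.poly_of_polyTime M.poly).comp (Pool.Agent.H622R2.poly_pairBits
      (Pool.Agent.H622R2.poly_pairBits (NPC.Poly.const u) (Poly.fst poly_unpair))
      (Poly.snd poly_unpair))
  · set z := pairBits u x with hz
    set t := C * (2 * u.length + 2) ^ k * (x.length + 1) ^ k with ht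
    have hzt : (M.p + b).eval z.length ≤ t := by
      refine (hkC _).trans ?_
      rw [ht, Nat.mul_assoc, ← Nat.mul_pow]
      refine Nat.mul_le_mul_left _ (Nat.pow_le_pow_left ?_ k)
      rw [hz, A2.length_pairBits]
      nlinarith
    rw [Polynomial.eval_add] at hzt
    refine ⟨V z, ?_, hL x⟩
    rw [ask_eq_run]
    have h1 : M.run (upTo t A) z (M.p.eval z.length) [] = some (V z) := by
      rw [← hM z]
      unfold Alg.out
      apply run_agree
      intro q hq
      have h2 := qset_len M hb A z (M.p.eval z.length) [] (by simp) q hq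
      unfold upTo
      rw [decide_eq_true (by omega : q.length ≤ t)]
      rfl
    exact Alg.run_mono M _ z _ _ t [] (by omega) h1

theorem ZLin.isRP {A : Oracle} {L : Set (List Bool)} (h : ZLin A L) : IsRP A L := by
  obtain ⟨u, v, h⟩ := h
  have hV : IsFP A (fun y : List Bool => [A (u ++ (unpair y).1)]) :=
    IsFP.tt (A := A) (Q := fun y => [u ++ (unpair y).1]) (H := fun p => p.2)
      (Poly.cons (Poly.append (NPC.Poly.const u) (Poly.fst poly_unpair)) (NPC.Poly.const []))
      (Poly.snd Poly.id)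
  refine ⟨_, Polynomial.X, hV, fun x => ?_⟩
  have e : accPr (fun y : List Bool => [A (u ++ (unpair y).1)])
      ((Polynomial.X : Polynomial ℕ).eval x.length) x = hitPr A u x.length := by
    unfold accPr hitPr
    rw [Polynomial.eval_X]
    simp only [unpair_pairBits, List.cons.injEq, and_true]
  rw [e]
  exact ⟨fun hx => ((h x).1 hx).1, fun hx => ((h x).2 hx).2⟩

/-- **Main theorem.** -/
theorem main : ∃ A : Oracle,
    (∀ L, IsRP A L ↔ IsP A L) ∧
    (∀ L, IsNP A L → IsNP A Lᶜ → IsP A L) ∧
    (∃ L, IsNP A L ∧ ¬ IsRP A L) ∧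
    (∀ c : ℕ, ∃ L, ZLin A L ∧ IsP A L ∧ ¬ InQ c A L) ∧
    ¬ ∃ V : List Bool → List Bool, IsFP A V ∧ ∀ u x : List Bool,
      (1 / 2 ≤ hitPr A u x.length → V (pairBits u x) = [true]) ∧
      (hitPr A u x.length = 0 → V (pairBits u x) ≠ [true]) := by
  classical
  obtain ⟨g, hg⟩ := exists_idx
  obtain ⟨K, hK⟩ := exists_code (Zf g) (Ff g)
  obtain ⟨B, f, hf, hBf, hB⟩ := exists_generic (Rq.P K) (Rq.isReq K)
  set A := join B K with hA
  have hRP : ∀ L, IsRP A L → IsP A L := by
    intro L hL
    obtain ⟨M, p, rfl, hcnt⟩ := IsRP.eq_Lg hL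
    obtain ⟨s, hc⟩ := hB (Rq.rp M p)
    rcases hc with ⟨x, hx⟩ | ⟨c0, hN, hsub⟩
    · obtain ⟨h1, h2⟩ := hx B (hBf s)
      rcases hcnt x with h3 | h3
      · exact absurd h3 h1
      · rw [← hA] at h2
        omega
    · have hBu := hsub (hBf s)
      obtain ⟨T, hT⟩ := exists_Bd M p
      obtain ⟨i, hi⟩ := hg (M, p, true, c0, T)
      exact sim hK i hi hT (H_up c0 hBu) (R := 2 * T * T) (fun x hx => heavy hT hN hBu x hx)
  have hNP : ∀ L, IsNP A L → IsNP A Lᶜ → IsP A L := by
    intro L hL hL'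
    obtain ⟨M, p, rfl⟩ := IsNP.eq_Lg hL
    obtain ⟨M', p', hM'⟩ := IsNP.eq_Lg hL'
    obtain ⟨s, hc⟩ := hB (Rq.np M M' p p')
    rcases hc with ⟨x, hx⟩ | ⟨c0, hN, hsub⟩
    · obtain ⟨h1, h2⟩ := hx B (hBf s)
      have h3 : x ∈ (Lg M p false A)ᶜ := by rw [hM']; exact h2
      exact absurd h1 h3
    · have hBu := hsub (hBf s)
      obtain ⟨T, hT⟩ := exists_Bd M p
      obtain ⟨T', hT'⟩ := exists_Bd M' p'
      obtain ⟨i, hi⟩ := hg (M, p, false, c0, T)
      refine sim hK i hi hT (H_up c0 hBu) (R := T') fun x hx => ?_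
      have h3 : x ∈ (Lg M p false A)ᶜ := hx
      rw [hM'] at h3
      exact disjoint_pair hT hT' hN hBu x h3
  have hQ : ∀ c : ℕ, ∃ L, ZLin A L ∧ ¬ InQ c A L := by
    intro k
    obtain ⟨s1, e, he, hke⟩ := hB (Rq.key k)
    refine ⟨LL B e, zlin_of fun n => (((hBf s1).2 e he n).1), ?_⟩
    rintro ⟨D, C, hD, h⟩
    obtain ⟨s2, hel, h2⟩ := hB (Rq.qq ⟨(e, k), hke⟩ ⟨D, hD⟩ C)
    rcases h2 with h2 | ⟨x, hx⟩
    · apply h2
      rcases Nat.le_total s1 s2 with h3 | h3
      · exact (hf s1 s2 h3).keys he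
      · rcases (hf s2 s1 h3).fresh e he with h4 | h4
        · exact h4
        · exact absurd h4 (by simpa using hel)
    · exact hx B (hBf s2) (h x)
  have hpr : ¬ ∃ V : List Bool → List Bool, IsFP A V ∧ ∀ u x : List Bool,
      (1 / 2 ≤ hitPr A u x.length → V (pairBits u x) = [true]) ∧
      (hitPr A u x.length = 0 → V (pairBits u x) ≠ [true]) := by
    rintro ⟨V, hV, h⟩
    obtain ⟨k, hk⟩ := inQ_of_isFP hV
    obtain ⟨L, ⟨u, v, huv⟩, hL⟩ := hQ k
    refine hL (hk u L fun x => ⟨fun hx => (h u x).1 ((huv x).1 hx).1, fun hx => ?_⟩)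
    by_contra hcon
    exact (h u x).2 ((huv x).2 hcon).2 hx
  refine ⟨A, fun L => ⟨hRP L, IsP.isRP⟩, hNP, ?_, fun c => ?_, hpr⟩
  swap
  · obtain ⟨L, h1, h2⟩ := hQ c
    exact ⟨L, h1, hRP L h1.isRP, h2⟩
  set V0 : List Bool → List Bool := fun y =>
    if (unpair y).1.length = (unpair (unpair y).2).2.length then
      [A ((unpair (unpair y).2).1 ++ (unpair y).1)] else [] with hV0
  have hV0F : IsFP A V0 := by
    have h1 : NPC.Poly (fun y : List Bool => (unpair y).1) := Poly.fst poly_unpair
    have h2 : NPC.Poly (fun y : List Bool => (unpair y).2) := Poly.snd poly_unpair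
    have h3 : NPC.Poly (fun y : List Bool => (unpair (unpair y).2).1) :=
      Poly.fst (poly_unpair.comp h2)
    have h4 : NPC.Poly (fun y : List Bool => (unpair (unpair y).2).2) :=
      Poly.snd (poly_unpair.comp h2)
    have h5 := IsFP.tt (A := A) (Q := fun y => [(unpair (unpair y).2).1 ++ (unpair y).1])
      (H := fun p => if (unpair p.1).1.length = (unpair (unpair p.1).2).2.length then p.2 else [])
      (Poly.cons (Poly.append h3 h1) (NPC.Poly.const []))
      (Poly.ite (Poly.decide_eq (Poly.length (h1.comp (Poly.fst Poly.id)))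
        (Poly.length (h4.comp (Poly.fst Poly.id)))) (Poly.snd Poly.id) (NPC.Poly.const []))
    exact h5
  refine ⟨{y | ∃ w : List Bool, w.length ≤ (Polynomial.X : Polynomial ℕ).eval y.length ∧
    V0 (pairBits w y) = [true]}, ⟨V0, Polynomial.X, hV0F, fun y => Iff.rfl⟩, fun hcon => ?_⟩
  obtain ⟨V, hV, hVL⟩ := hRP _ hcon
  refine hpr ⟨V, hV, fun u x => ⟨fun h => (hVL _).1 ?_, fun h h1 => ?_⟩⟩
  · rw [hitPr_eq] at h
    have h2 : (univ.filter (fun w : Fin x.length → Bool => A (u ++ List.ofFn w) = true)).Nonempty := by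
      by_contra h3
      rw [Finset.not_nonempty_iff_eq_empty] at h3
      rw [h3, Finset.card_empty] at h
      norm_num at h
    obtain ⟨w, hw⟩ := h2
    rw [Finset.mem_filter] at hw
    refine ⟨List.ofFn w, ?_, ?_⟩
    · rw [List.length_ofFn, Polynomial.eval_X, A2.length_pairBits]
      omega
    · rw [hV0]
      simp only [unpair_pairBits]
      rw [if_pos (by rw [List.length_ofFn]), hw.2]
  · obtain ⟨w, -, hw⟩ := (hVL _).2 h1
    rw [hV0] at hw
    simp only [unpair_pairBits] at hw
    split_ifs at hw with h2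
    rw [hitPr_eq, div_eq_zero_iff] at h
    rcases h with h | h
    · rw [Nat.cast_eq_zero, Finset.card_eq_zero, Finset.filter_eq_empty_iff] at h
      refine h (x := fun i => w[(i : ℕ)]'(by rw [h2]; exact i.2)) (Finset.mem_univ _) ?_
      have e : List.ofFn (fun i : Fin x.length => w[(i : ℕ)]'(by rw [h2]; exact i.2)) = w := by
        apply List.ext_getElem
        · rw [List.length_ofFn, h2]
        · intro i h3 h4
          rw [List.getElem_ofFn]
      rw [e]
      simpa using hw
    · exact absurd h (by positivity)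

end Pool.Agent.L0h33.UD
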