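import Pool.Agent.L0h33.UD.Run

/-!
# Machines which keep their promise for all oracles which satisfy a condition
-/

set_option autoImplicit false

namespace Pool.Agent.L0h33.UD

open Pool.Agent.NPC Pool.Agent.H620R2.Gauge Pool.Agent.TH678.GC Pool.Agent.Y626.WC
  Pool.Agent.TH678.EL Finset

/-- the number of the accepting random strings -/
noncomputable def cnt (M : Alg) (p : Polynomial ℕ) (A : Oracle) (x : List Bool) : ℕ :=
  (univ.filter (fun w : Fin (p.eval x.length) → Bool =>
    M.out A (pairBits (List.ofFn w) x) = some [true])).card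

/-- the machine has one-sided error for all oracles which satisfy `c` -/
def NV (K : Oracle) (M : Alg) (p : Polynomial ℕ) (c : Cd) : Prop :=
  ∀ B ∈ H c, ∀ x : List Bool, cnt M p (join B K) x = 0 ∨
    2 ^ p.eval x.length ≤ 2 * cnt M p (join B K) x

theorem cnt_eq_zero {M : Alg} {p : Polynomial ℕ} {A : Oracle} {x : List Bool} :
    cnt M p A x = 0 ↔ x ∉ Lg M p true A := by
  unfold cnt Lg
  rw [Finset.card_eq_zero, Finset.filter_eq_empty_iff]
  constructor
  · rintro h ⟨w, ⟨-, h1⟩, h2⟩
    have hw := h1 rfl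
    refine h (x := fun i => w[(i : ℕ)]'(by rw [hw]; exact i.2)) (Finset.mem_univ _) ?_
    have e : List.ofFn (fun i : Fin (p.eval x.length) => w[(i : ℕ)]'(by rw [hw]; exact i.2)) = w := by
      apply List.ext_getElem
      · rw [List.length_ofFn, hw]
      · intro i h3 h4
        rw [List.getElem_ofFn]
    rw [e]
    exact h2
  · intro h w _ h1
    exact h ⟨List.ofFn w, ⟨by rw [List.length_ofFn], fun _ => List.length_ofFn ..⟩, h1⟩

theorem heavy {K : Oracle} {M : Alg} {p T : Polynomial ℕ} (hT : Bd M p T) {c : Cd}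
    (hN : NV K M p c) {B : Oracle} (hB : B ∈ H (up c)) (x : List Bool)
    (hx : x ∉ Lg M p true (join B K)) :
    ∃ E : Finset (List Bool), E.card ≤ (2 * T * T).eval x.length ∧
      ∀ B' ∈ H c, (∀ q ∈ Qin c (T.eval x.length), B' q = B q) →
      ∀ w, okw true (p.eval x.length) w →
        M.out (join B' K) (pairBits w x) = some [true] →
        ∃ q ∈ E, q ∈ QB M B' K (pairBits w x) ∧ B' q ≠ B q := by
  classical
  set m := p.eval x.length with hm
  set t := T.eval x.length with ht
  set Q : (Fin m → Bool) → Finset (List Bool) := fun w => QB M B K (pairBits (List.ofFn w) x)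
    with hQ
  have hwl : ∀ w : Fin m → Bool, (List.ofFn w).length ≤ p.eval x.length := by
    intro w
    rw [List.length_ofFn]
  have hQc : ∀ w, (Q w).card ≤ t := fun w =>
    (QB_card _ _ _ _).trans (hT x _ _ (hwl w)).1
  set nq : List Bool → ℕ := fun q => (univ.filter (fun w => q ∈ Q w)).card with hnq
  set E : Finset (List Bool) := (univ.biUnion Q).filter (fun q => 2 ^ m ≤ 2 * t * nq q) with hE
  have hcardF : (univ : Finset (Fin m → Bool)).card = 2 ^ m := by
    rw [Finset.card_univ, Fintype.card_fun, Fintype.card_bool, Fintype.card_fin]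
  have hEc : E.card ≤ 2 * t * t := by
    have h1 : E.card * 2 ^ m ≤ ∑ q ∈ E, 2 * t * nq q := by
      rw [← smul_eq_mul, ← Finset.sum_const]
      refine Finset.sum_le_sum fun q hq => ?_
      exact (Finset.mem_filter.1 hq).2
    have h2 : ∑ q ∈ E, nq q ≤ 2 ^ m * t := by
      have h3 : ∑ q ∈ E, nq q = ∑ w : Fin m → Bool, (E.filter (fun q => q ∈ Q w)).card := by
        simp only [hnq, Finset.card_filter]
        rw [Finset.sum_comm]
      rw [h3, ← hcardF, ← smul_eq_mul, ← Finset.sum_const]
      refine Finset.sum_le_sum fun w _ => ?_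
      refine (Finset.card_le_card ?_).trans (hQc w)
      intro q hq
      exact (Finset.mem_filter.1 hq).2
    rw [← Finset.mul_sum] at h1
    have h4 : E.card * 2 ^ m ≤ (2 * t * t) * 2 ^ m := by
      calc E.card * 2 ^ m ≤ 2 * t * ∑ q ∈ E, nq q := h1
        _ ≤ 2 * t * (2 ^ m * t) := Nat.mul_le_mul_left _ h2
        _ = (2 * t * t) * 2 ^ m := by ring
    exact Nat.le_of_mul_le_mul_right h4 (Nat.two_pow_pos m)
  refine ⟨E, ?_, fun B' hB' hq w' hw' hacc => ?_⟩
  · have : (2 * T * T).eval x.length = 2 * t * t := by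
      simp only [Polynomial.eval_mul, Polynomial.eval_ofNat, ht]
    rw [this]
    exact hEc
  set U := QB M B' K (pairBits w' x) with hU
  have hw'l : w'.length ≤ p.eval x.length := hw'.1
  have hUb := hT x w' (join B' K) hw'l
  have hUc : U.card ≤ t := (QB_card _ _ _ _).trans hUb.1
  have hUl : ∀ q ∈ U, q.length ≤ t := by
    intro q hq1
    have h1 := hUb.2 _ (mem_QB.1 hq1)
    rw [List.length_cons] at h1
    omega
  have hB'' := merge hB hB' hq U hUc hUl
  set B'' : Oracle := fun q => if q ∈ U then B' q else B q with hBd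
  have hacc'' : M.out (join B'' K) (pairBits w' x) = some [true] := by
    rw [← hacc]
    refine out_agree hUb.2 (fun _ _ => rfl) fun q hq1 => ?_
    rw [hBd]
    beta_reduce
    rw [if_pos hq1]
  set Δ := U.filter (fun q => B' q ≠ B q) with hΔ
  have hΔc : Δ.card ≤ t := (Finset.card_filter_le _ _).trans hUc
  have hpos : cnt M p (join B'' K) x ≠ 0 := by
    rw [Ne, cnt_eq_zero, not_not]
    exact ⟨w', hw', hacc''⟩
  have hhalf : 2 ^ m ≤ 2 * cnt M p (join B'' K) x := by
    rcases hN B'' hB'' x with h | h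
    · exact absurd h hpos
    · exact h
  have hsum : cnt M p (join B'' K) x ≤ ∑ q ∈ Δ, nq q := by
    have h1 : univ.filter (fun w : Fin m → Bool =>
        M.out (join B'' K) (pairBits (List.ofFn w) x) = some [true]) ⊆
        Δ.biUnion (fun q => univ.filter (fun w => q ∈ Q w)) := by
      intro w hw
      rw [Finset.mem_filter] at hw
      rw [Finset.mem_biUnion]
      by_contra hcon
      push Not at hcon
      apply hx
      refine ⟨List.ofFn w, ⟨hwl w, fun _ => List.length_ofFn ..⟩, ?_⟩
      rw [← hw.2]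
      symm
      refine out_agree (hT x _ (join B K) (hwl w)).2 (fun _ _ => rfl) fun q hq1 => ?_
      rw [hBd]
      beta_reduce
      split_ifs with hqU
      · by_contra hne
        have hqΔ : q ∈ Δ := Finset.mem_filter.2 ⟨hqU, fun h => hne h.symm⟩
        exact hcon q hqΔ (Finset.mem_filter.2 ⟨Finset.mem_univ _, hq1⟩)
      · rfl
    exact (Finset.card_le_card h1).trans Finset.card_biUnion_le
  by_contra hcon
  push Not at hcon
  have hlt : ∀ q ∈ Δ, 2 * t * nq q < 2 ^ m := by
    intro q hqΔ
    by_contra hge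
    push Not at hge
    rw [hΔ, Finset.mem_filter] at hqΔ
    have hqE : q ∈ E := by
      rw [hE, Finset.mem_filter, Finset.mem_biUnion]
      refine ⟨?_, hge⟩
      have hnp : 0 < nq q := by
        rcases Nat.eq_zero_or_pos (nq q) with h0 | h0
        · rw [h0] at hge
          have := Nat.two_pow_pos m
          omega
        · exact h0
      obtain ⟨w, hw⟩ := Finset.card_pos.1 hnp
      exact ⟨w, Finset.mem_univ _, (Finset.mem_filter.1 hw).2⟩
    exact hqΔ.2 (hcon q hqE hqΔ.1)
  have hΔne : Δ.Nonempty := by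
    by_contra h0
    rw [Finset.not_nonempty_iff_eq_empty] at h0
    rw [h0, Finset.sum_empty] at hsum
    omega
  have h1 : ∑ q ∈ Δ, 2 * t * nq q < Δ.card * 2 ^ m := by
    have h0 : ∑ _q ∈ Δ, 2 ^ m = Δ.card * 2 ^ m := by rw [Finset.sum_const, smul_eq_mul]
    rw [← h0]
    exact Finset.sum_lt_sum_of_nonempty hΔne hlt
  rw [← Finset.mul_sum] at h1
  have h2 : t * 2 ^ m ≤ 2 * t * ∑ q ∈ Δ, nq q := by
    calc t * 2 ^ m ≤ t * (2 * ∑ q ∈ Δ, nq q) :=
          Nat.mul_le_mul_left _ (hhalf.trans (Nat.mul_le_mul_left _ hsum))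
      _ = 2 * t * ∑ q ∈ Δ, nq q := by ring
  have h3 : Δ.card * 2 ^ m ≤ t * 2 ^ m := Nat.mul_le_mul_right _ hΔc
  omega

/-- two machines which never accept the same input, for no oracle which satisfies `c` -/
def ND (K : Oracle) (M M' : Alg) (p p' : Polynomial ℕ) (c : Cd) : Prop :=
  ∀ B ∈ H c, ∀ x : List Bool,
    ¬ (x ∈ Lg M p false (join B K) ∧ x ∈ Lg M' p' false (join B K))

theorem disjoint_pair {K : Oracle} {M M' : Alg} {p p' T T' : Polynomial ℕ} (hT : Bd M p T)
    (hT' : Bd M' p' T') {c : Cd} (hN : ND K M M' p p' c) {B : Oracle} (hB : B ∈ H (up c))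
    (x : List Bool) (hx : x ∈ Lg M' p' false (join B K)) :
    ∃ E : Finset (List Bool), E.card ≤ T'.eval x.length ∧
      ∀ B' ∈ H c, (∀ q ∈ Qin c (T.eval x.length), B' q = B q) →
      ∀ w, okw false (p.eval x.length) w →
        M.out (join B' K) (pairBits w x) = some [true] →
        ∃ q ∈ E, q ∈ QB M B' K (pairBits w x) ∧ B' q ≠ B q := by
  classical
  obtain ⟨w0, hw0, hacc0⟩ := hx
  have hb0 := hT' x w0 (join B K) hw0.1
  refine ⟨QB M' B K (pairBits w0 x), (QB_card _ _ _ _).trans hb0.1,
    fun B' hB' hq w' hw' hacc => ?_⟩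
  set U := QB M B' K (pairBits w' x) with hU
  have hUb := hT x w' (join B' K) hw'.1
  have hUc : U.card ≤ T.eval x.length := (QB_card _ _ _ _).trans hUb.1
  have hUl : ∀ q ∈ U, q.length ≤ T.eval x.length := by
    intro q hq1
    have h1 := hUb.2 _ (mem_QB.1 hq1)
    rw [List.length_cons] at h1
    omega
  have hB'' := merge hB hB' hq U hUc hUl
  set B'' : Oracle := fun q => if q ∈ U then B' q else B q with hBd
  by_contra hcon
  push Not at hcon
  refine hN B'' hB'' x ⟨⟨w', hw', ?_⟩, ⟨w0, hw0, ?_⟩⟩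
  · rw [← hacc]
    refine out_agree hUb.2 (fun _ _ => rfl) fun q hq1 => ?_
    rw [hBd]
    beta_reduce
    rw [if_pos hq1]
  · rw [← hacc0]
    refine out_agree hb0.2 (fun _ _ => rfl) fun q hq1 => ?_
    rw [hBd]
    beta_reduce
    split_ifs with hqU
    · exact (hcon q hq1 hqU).symm
    · rfl

end Pool.Agent.L0h33.UD
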