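import Pool.Agent.L0h33.UD.Strat

/-!
# The strategy decides the language in polynomial time
-/

set_option autoImplicit false

namespace Pool.Agent.L0h33.UD

open Pool.Agent.NPC Pool.Agent.H620R2.Gauge Pool.Agent.TH678.GC Pool.Agent.Y626.WC
  Pool.Agent.TH678.EL Finset

/-- the admissible certificates: exactly `m` bits, or at most `m` bits -/
def okw (kd : Bool) (m : ℕ) (w : List Bool) : Prop :=
  w.length ≤ m ∧ (kd = true → w.length = m)

/-- the data which determine a strategy -/
abbrev Idx : Type := Alg × Polynomial ℕ × Bool × Cd × Polynomial ℕ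

/-- the oracle agrees with the answers -/
def Cons (κ : List (List Bool × Bool)) (B : Oracle) : Prop := ∀ a ∈ κ, B a.1 = a.2

/-- accepting computations which are possible after the answers `κ` -/
def Sx (ix : Idx) (K : Oracle) (x : List Bool) (κ : List (List Bool × Bool))
    (pr : List Bool × Oracle) : Prop :=
  okw ix.2.2.1 (ix.2.1.eval x.length) pr.1 ∧ pr.2 ∈ H ix.2.2.2.1 ∧ Cons κ pr.2 ∧
    ix.1.out (join pr.2 K) (pairBits pr.1 x) = some [true]

open Classical in
/-- the list of the next questions -/
noncomputable def Zc (ix : Idx) (K : Oracle) (x : List Bool) (κ : List (List Bool × Bool)) :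
    List (List Bool) :=
  if κ = [] then (Qin ix.2.2.2.1 (ix.2.2.2.2.eval x.length)).toList else
    if h : ∃ pr, Sx ix K x κ pr then
      (QB ix.1 h.choose.2 K (pairBits h.choose.1 x)).toList
    else []

open Classical in
/-- the coded strategy: questions -/
noncomputable def Zf (g : ℕ → Idx) (K : Oracle) (y s : List Bool) : List Bool :=
  if (bits (Zc (g (unpair (unpair y).2).1.length) K (unpair (unpair y).2).2 (deK s))).length ≤
    y.length then bits (Zc (g (unpair (unpair y).2).1.length) K (unpair (unpair y).2).2 (deK s))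
  else []

open Classical in
/-- the coded strategy: verdicts -/
noncomputable def Ff (g : ℕ → Idx) (K : Oracle) (y s : List Bool) : Bool :=
  decide (∃ pr, Sx (g (unpair (unpair y).2).1.length) K (unpair (unpair y).2).2 (deK s) pr)

/-- the answers after `j` rounds -/
noncomputable def kap (ix : Idx) (K B : Oracle) (x : List Bool) : ℕ → List (List Bool × Bool)
  | 0 => []
  | j + 1 => kap ix K B x j ++ (Zc ix K x (kap ix K B x j)).map (fun q => (q, B q))

theorem bits_toList_length (S : Finset (List Bool)) (a b : ℕ) (ha : S.card ≤ a)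
    (hb : ∀ q ∈ S, q.length ≤ b) : (bits S.toList).length ≤ a * (4 * b + 2) + 1 := by
  rw [bits_length]
  have key : ∀ l : List (List Bool), (∀ q ∈ l, q.length ≤ b) → sz l ≤ l.length * (4 * b + 2) + 1 := by
    intro l
    induction l with
    | nil => intro _; simp
    | cons q l ih =>
      intro h
      rw [sz_list_cons, List.length_cons, Nat.succ_mul]
      have h1 := ih fun q hq => h q (List.mem_cons_of_mem _ hq)
      have h2 := sz_listBool_le q
      have h3 := h q List.mem_cons_self
      omega
  refine (key _ fun q hq => hb q (Finset.mem_toList.1 hq)).trans ?_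
  rw [Finset.length_toList]
  have := Nat.mul_le_mul_right (4 * b + 2) ha
  omega

section

variable {ix : Idx} {K B : Oracle} {x : List Bool}

theorem kap_cons (j : ℕ) : Cons (kap ix K B x j) B := by
  induction j with
  | zero => intro a ha; simp [kap] at ha
  | succ j ih =>
    intro a ha
    rw [kap, List.mem_append] at ha
    rcases ha with ha | ha
    · exact ih a ha
    · obtain ⟨q, _, rfl⟩ := List.mem_map.1 ha
      rfl

theorem kap_one_mem {q : List Bool} (hq : q ∈ Qin ix.2.2.2.1 (ix.2.2.2.2.eval x.length)) (j : ℕ) :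
    (q, B q) ∈ kap ix K B x (j + 1) := by
  induction j with
  | zero =>
    rw [kap, kap, Zc, if_pos rfl, List.nil_append]
    exact List.mem_map.2 ⟨q, Finset.mem_toList.2 hq, rfl⟩
  | succ j ih =>
    rw [kap]
    exact List.mem_append_left _ ih

theorem kap_ne (j : ℕ) : kap ix K B x (j + 1) ≠ [] := by
  intro h
  have h1 : (([] : List Bool), B []) ∈ kap ix K B x (j + 1) :=
    kap_one_mem (by unfold Qin; exact Finset.mem_insert_self _ _) j
  rw [h] at h1
  simp at h1

theorem Sx_mono {κ κ' : List (List Bool × Bool)} (h : ∀ a ∈ κ, a ∈ κ') {pr : List Bool × Oracle}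
    (hp : Sx ix K x κ' pr) : Sx ix K x κ pr :=
  ⟨hp.1, hp.2.1, fun a ha => hp.2.2.1 a (h a ha), hp.2.2.2⟩

theorem kap_sub {i j : ℕ} (h : i ≤ j) : ∀ a ∈ kap ix K B x i, a ∈ kap ix K B x j := by
  induction j with
  | zero =>
    have : i = 0 := by omega
    subst this
    exact fun a ha => ha
  | succ j ih =>
    rcases Nat.lt_or_ge i (j + 1) with h1 | h1
    · intro a ha
      rw [kap]
      exact List.mem_append_left _ (ih (by omega) a ha)
    · have : i = j + 1 := by omega
      subst this
      exact fun a ha => ha

/-- the questions asked so far -/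
noncomputable def dm (ix : Idx) (K B : Oracle) (x : List Bool) (j : ℕ) : Finset (List Bool) :=
  ((kap ix K B x j).map Prod.fst).toFinset

theorem mem_dm {j : ℕ} {q : List Bool} : q ∈ dm ix K B x j ↔ ∃ b, (q, b) ∈ kap ix K B x j := by
  unfold dm
  rw [List.mem_toFinset, List.mem_map]
  constructor
  · rintro ⟨⟨q', b⟩, h, rfl⟩
    exact ⟨b, h⟩
  · rintro ⟨b, h⟩
    exact ⟨_, h, rfl⟩

/-- if every possible accepting computation asks a question in `E` whose answer is wrong, then
after `|E| + 1` rounds there is no possible accepting computation -/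
theorem rounds {E : Finset (List Bool)}
    (hE : ∀ B' ∈ H ix.2.2.2.1, (∀ q ∈ Qin ix.2.2.2.1 (ix.2.2.2.2.eval x.length), B' q = B q) →
      ∀ w, okw ix.2.2.1 (ix.2.1.eval x.length) w →
        ix.1.out (join B' K) (pairBits w x) = some [true] →
        ∃ q ∈ E, q ∈ QB ix.1 B' K (pairBits w x) ∧ B' q ≠ B q) :
    ∀ J, E.card + 1 < J → ¬ ∃ pr, Sx ix K x (kap ix K B x J) pr := by
  classical
  have key : ∀ j, (∃ pr, Sx ix K x (kap ix K B x (j + 1)) pr) →
      j ≤ (E ∩ dm ix K B x (j + 1)).card := by
    intro j
    induction j with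
    | zero => intro _; exact Nat.zero_le _
    | succ j ih =>
      rintro ⟨pr, hpr⟩
      have h0 : ∃ pr, Sx ix K x (kap ix K B x (j + 1)) pr :=
        ⟨pr, Sx_mono (kap_sub (Nat.le_succ _)) hpr⟩
      have h1 := ih h0
      have h2 := h0.choose_spec
      set p0 := h0.choose with hp0
      obtain ⟨h3, h4, h5, h6⟩ := h2
      obtain ⟨q, hqE, hqQ, hqB⟩ := hE p0.2 h4 (fun q hq => h5 _ (kap_one_mem hq j)) p0.1 h3 h6
      have h7 : q ∉ dm ix K B x (j + 1) := by
        rw [mem_dm]
        rintro ⟨b, hb⟩
        apply hqB
        rw [h5 _ hb]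
        exact (kap_cons (j + 1) _ hb).symm
      have h8 : q ∈ dm ix K B x (j + 1 + 1) := by
        rw [mem_dm]
        refine ⟨B q, ?_⟩
        rw [kap]
        refine List.mem_append_right _ (List.mem_map.2 ⟨q, ?_, rfl⟩)
        rw [Zc, if_neg (kap_ne j), dif_pos h0]
        exact Finset.mem_toList.2 hqQ
      have h9 : insert q (E ∩ dm ix K B x (j + 1)) ⊆ E ∩ dm ix K B x (j + 1 + 1) := by
        intro u hu
        rw [Finset.mem_insert] at hu
        rw [Finset.mem_inter]
        rcases hu with rfl | hu
        · exact ⟨hqE, h8⟩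
        · rw [Finset.mem_inter] at hu
          refine ⟨hu.1, ?_⟩
          obtain ⟨b, hb⟩ := mem_dm.1 hu.2
          exact mem_dm.2 ⟨b, kap_sub (Nat.le_succ _) _ hb⟩
      have h10 := Finset.card_le_card h9
      rw [Finset.card_insert_of_notMem (fun h => h7 (Finset.mem_inter.1 h).2)] at h10
      omega
  intro J hJ h
  obtain ⟨j, rfl⟩ : ∃ j, J = j + 1 := ⟨J - 1, by omega⟩
  have h1 := key j h
  have h2 := Finset.card_le_card (Finset.inter_subset_left : E ∩ dm ix K B x (j + 1) ⊆ E)
  omega

end

/-- The language of the accepted inputs. -/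
def Lg (M : Alg) (p : Polynomial ℕ) (kd : Bool) (A : Oracle) : Set (List Bool) :=
  {x | ∃ w, okw kd (p.eval x.length) w ∧ M.out A (pairBits w x) = some [true]}

theorem poly_rep {α : Type} [TEnc α] {n : α → ℕ} (hn : UPoly n) (b : Bool) :
    NPC.Poly (fun a => List.replicate (n a) b) :=
  (NPC.Poly.map (F := fun _ _ => b) hn (NPC.Poly.const b)).congr fun a => by
    simp [List.map_replicate]

/-- the padded instance -/
def yy (P : Polynomial ℕ) (i : ℕ) (x : List Bool) : List Bool :=
  pairBits (List.replicate (P.eval x.length) true) (pairBits (List.replicate i true) x)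

theorem poly_yy (P : Polynomial ℕ) (i : ℕ) : NPC.Poly (yy P i) :=
  Pool.Agent.H622R2.poly_pairBits (poly_rep ((UPoly.length NPC.Poly.id).eval P) true)
    (Pool.Agent.H622R2.poly_pairBits (NPC.Poly.const _) NPC.Poly.id)

theorem yy_len (P : Polynomial ℕ) (i : ℕ) (x : List Bool) : P.eval x.length ≤ (yy P i x).length := by
  unfold yy
  rw [A2.length_pairBits, List.length_replicate]
  omega

/-- **The simulation.** -/
theorem sim {g : ℕ → Idx} {K : Oracle}
    (hK : ∀ y h : List Bool,
      (∀ t : ℕ, K (ec y h (true :: t.bits)) =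
        decide (t < (Zf g (cut K (y.length + 1)) y h).length)) ∧
      (∀ t : ℕ, K (ec y h (false :: t.bits)) =
        (Zf g (cut K (y.length + 1)) y h).getD t false) ∧
      K (ec y h []) = Ff g (cut K (y.length + 1)) y h)
    (i : ℕ) {M : Alg} {p T R : Polynomial ℕ} {kd : Bool} {c : Cd} (hi : g i = (M, p, kd, c, T))
    (hT : Bd M p T) {B : Oracle} (hB : B ∈ H c)
    (hE : ∀ x, x ∉ Lg M p kd (join B K) → ∃ E : Finset (List Bool), E.card ≤ R.eval x.length ∧
      ∀ B' ∈ H c, (∀ q ∈ Qin c (T.eval x.length), B' q = B q) →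
      ∀ w, okw kd (p.eval x.length) w →
        M.out (join B' K) (pairBits w x) = some [true] →
        ∃ q ∈ E, q ∈ QB M B' K (pairBits w x) ∧ B' q ≠ B q) :
    IsP (join B K) (Lg M p kd (join B K)) := by
  classical
  set P : Polynomial ℕ := (qc c).comp T * (4 * (ql c).comp T + 2) + 1 + (T * (4 * T + 2) + 1) + T +
    R + 2 with hP
  have hPe : ∀ n, P.eval n = (qc c).eval (T.eval n) * (4 * (ql c).eval (T.eval n) + 2) + 1 +
      (T.eval n * (4 * T.eval n + 2) + 1) + T.eval n + R.eval n + 2 := by
    intro n
    rw [hP]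
    simp only [Polynomial.eval_add, Polynomial.eval_mul, Polynomial.eval_comp,
      Polynomial.eval_ofNat, Polynomial.eval_one]
  set Z : List Bool → List Bool → List Bool := fun y s => Zf g (cut K (y.length + 1)) y s with hZ
  set FV : List Bool → List Bool → Bool := fun y s => Ff g (cut K (y.length + 1)) y s with hFV
  have h4 : ∀ y s : List Bool, (Z y s).length ≤ y.length := by
    intro y s
    rw [hZ]
    simp only [Zf]
    split_ifs with h
    · exact h
    · simp
  have hsim := isFP_sim (A := B) (E := K) (Z := Z) (FV := FV) (fun y h t => (hK y h).1 t)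
    (fun y h t => (hK y h).2.1 t) (fun y h => (hK y h).2.2) h4
  have hG : IsFP (join B K) (fun x => pairBits [] (yy P i x)) :=
    IsFP.of_poly (Pool.Agent.H622R2.poly_pairBits (NPC.Poly.const _) (poly_yy P i))
  have hV := IsFP.comp hsim hG
  refine ⟨_, hV, fun x => ?_⟩
  rw [unpair_pairBits]
  dsimp only
  set y := yy P i x with hy
  set ix : Idx := (M, p, kd, c, T) with hix
  set K' := cut K (y.length + 1) with hK'
  have hylen : P.eval x.length ≤ y.length := yy_len P i x
  have hy2 : unpair (unpair y).2 = (List.replicate i true, x) := by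
    rw [hy, yy, unpair_pairBits]
    dsimp only
    rw [unpair_pairBits]
  have hgi : g (unpair (unpair y).2).1.length = ix := by
    rw [hy2, List.length_replicate]
    exact hi
  have hx2 : (unpair (unpair y).2).2 = x := by rw [hy2]
  have hKK : ∀ u : List Bool, u.length ≤ T.eval x.length → K u = K' u := by
    intro u hu
    have h1 := hPe x.length
    rw [hK']
    unfold cut
    rw [if_pos (by omega)]
  -- bounds for the questions
  have hok : ∀ w, okw kd (p.eval x.length) w → w.length ≤ p.eval x.length := fun w h => h.1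
  have hZb : ∀ κ, (bits (Zc ix K' x κ)).length ≤ y.length := by
    intro κ
    have h1 := hPe x.length
    unfold Zc
    split_ifs with h2 h3
    · refine (bits_toList_length _ _ _ (Qin_card c _) fun q hq => Qin_len hq).trans ?_
      show (qc c).eval (T.eval x.length) * (4 * (ql c).eval (T.eval x.length) + 2) + 1 ≤ y.length
      omega
    · obtain ⟨h5, -⟩ := h3.choose_spec
      have h6 := hT x h3.choose.1 (join h3.choose.2 K') (hok _ h5)
      refine (bits_toList_length _ (T.eval x.length) (T.eval x.length)
        ((QB_card _ _ _ _).trans h6.1) fun q hq => ?_).trans ?_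
      · have h7 := h6.2 _ (mem_QB.1 hq)
        rw [List.length_cons] at h7
        omega
      · omega
    · simp only [bits_length, sz_list_nil]
      omega
  have hstate : ∀ j, (stp B Z y)^[j] (bits ([] : List (List Bool × Bool))) =
      bits (kap ix K' B x j) := by
    intro j
    induction j with
    | zero => rfl
    | succ j ih =>
      rw [Function.iterate_succ_apply', ih]
      unfold stp
      rw [deK_bits]
      have h5 : Z y (bits (kap ix K' B x j)) = bits (Zc ix K' x (kap ix K' B x j)) := by
        rw [hZ]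
        simp only [Zf]
        rw [hgi, hx2, deK_bits, ← hK', if_pos (hZb _)]
      rw [h5, deQ_bits]
      rfl
  rw [hstate]
  have hver : FV y (bits (kap ix K' B x (pairBits [] y).length)) =
      decide (∃ pr, Sx ix K' x (kap ix K' B x (pairBits [] y).length) pr) := by
    rw [hFV]
    simp only [Ff]
    rw [hgi, hx2, deK_bits]
  rw [hver, List.cons.injEq, decide_eq_true_eq]
  simp only [and_true]
  have hout : ∀ (B' : Oracle) (w : List Bool), w.length ≤ p.eval x.length →
      M.out (join B' K') (pairBits w x) = M.out (join B' K) (pairBits w x) := fun B' w hw =>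
    out_agree (hT x w (join B' K) hw).2 hKK fun q _ => rfl
  have hQA : ∀ (B' : Oracle) (w : List Bool), w.length ≤ p.eval x.length →
      QA M (join B' K') (pairBits w x) = QA M (join B' K) (pairBits w x) := fun B' w hw =>
    QA_agree (hT x w (join B' K) hw).2 hKK fun q _ => rfl
  constructor
  · rintro ⟨w, hw, hacc⟩
    exact ⟨(w, B), hw, hB, kap_cons _, by rw [← hacc]; exact hout B w (hok w hw)⟩
  · intro h
    by_contra hx
    obtain ⟨E, hE1, hE2⟩ := hE x hx
    refine rounds (ix := ix) (K := K') (B := B) (x := x) (E := E) ?_ (pairBits [] y).length ?_ h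
    · intro B' hB' hq w hw hacc
      change M.out (join B' K') (pairBits w x) = some [true] at hacc
      rw [hout B' w (hok w hw)] at hacc
      obtain ⟨q, h5, h6, h7⟩ := hE2 B' hB' hq w hw hacc
      refine ⟨q, h5, ?_, h7⟩
      rw [mem_QB] at h6 ⊢
      change _ ∈ QA M (join B' K') (pairBits w x)
      rw [hQA B' w (hok w hw)]
      exact h6
    · rw [A2.length_pairBits]
      have h1 := hPe x.length
      simp only [List.length_nil]
      omega

end Pool.Agent.L0h33.UD
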