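import Pool.Agent.L0h33.UD.Heavy

/-!
# The requirements and the final oracle
-/

set_option autoImplicit false

namespace Pool.Agent.L0h33.UD

open Pool.Agent.NPC Pool.Agent.H620R2.Gauge Pool.Agent.TH678.GC Pool.Agent.Y626.WC
  Pool.Agent.TH678.EL Pool.Agent.TH678.ETH Finset

/-- `c'` refines `c` -/
structure Ref (c' c : Cd) : Prop where
  /-- fewer oracles -/
  sub : H c' ⊆ H c
  /-- more keys -/
  keys : c.D ⊆ c'.D
  /-- more strings are decided -/
  len : c.l ≤ c'.l
  /-- the new keys are large -/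
  fresh : ∀ e ∈ c'.D, e ∈ c.D ∨ c.l < e

theorem Ref.refl (c : Cd) : Ref c c := ⟨fun _ h => h, fun _ h => h, le_rfl, fun _ h => Or.inl h⟩

theorem Ref.trans {a b c : Cd} (h1 : Ref a b) (h2 : Ref b c) : Ref a c := by
  refine ⟨fun _ h => h2.sub (h1.sub h), fun _ h => h1.keys (h2.keys h), h2.len.trans h1.len,
    fun e he => ?_⟩
  rcases h1.fresh e he with h | h
  · exact h2.fresh e h
  · exact Or.inr (lt_of_le_of_lt h2.len h)

theorem ref_up {c : Cd} : Ref (up c) c :=
  ⟨H_up c, fun _ h => h, le_rfl, fun _ h => Or.inl h⟩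

theorem ref_fix {c : Cd} {B : Oracle} (hB : B ∈ H c) {l : ℕ} (hl : c.l ≤ l) : Ref (fix c B l) c :=
  ⟨fix_sub hB hl, fun _ h => h, hl, fun _ h => Or.inl h⟩

theorem ref_add {c : Cd} {e : ℕ} (he : c.l < e) : Ref (add c e) c :=
  ⟨add_sub c e, fun _ h => Finset.mem_insert_of_mem h, le_rfl, fun e' h => by
    rcases Finset.mem_insert.1 h with rfl | h
    · exact Or.inr he
    · exact Or.inl h⟩

/-- A requirement: it is preserved by refinements and can be met. -/
structure IsReq (P : Cd → Prop) : Prop where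
  /-- preserved -/
  mono : ∀ c c' : Cd, Ref c' c → P c → P c'
  /-- can be met -/
  dense : ∀ c : Cd, (H c).Nonempty → ∃ c', (H c').Nonempty ∧ Ref c' c ∧ P c'

theorem req_len (n : ℕ) : IsReq (fun c => n ≤ c.l) := by
  refine ⟨fun c c' h h1 => h1.trans h.len, fun c ⟨B, hB⟩ => ?_⟩
  have hl : c.l ≤ c.l + n := Nat.le_add_right _ _
  exact ⟨fix c B (c.l + n), ⟨B, fix_mem hB hl⟩, ref_fix hB hl, Nat.le_add_left _ _⟩

theorem req_key (n : ℕ) : IsReq (fun c => ∃ e ∈ c.D, n ≤ e) := by
  refine ⟨fun c c' h ⟨e, he, h1⟩ => ⟨e, h.keys he, h1⟩, fun c ⟨B, hB⟩ => ?_⟩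
  obtain ⟨e, he, B', hB'⟩ := exists_add hB (n + c.l + 1)
  exact ⟨add c e, ⟨B', hB'⟩, ref_add (by omega), e, Finset.mem_insert_self _ _, by omega⟩

/-- The requirement for a machine with one-sided error. -/
def ReqRP (K : Oracle) (M : Alg) (p : Polynomial ℕ) (c : Cd) : Prop :=
  (∃ x : List Bool, ∀ B ∈ H c, cnt M p (join B K) x ≠ 0 ∧
    2 * cnt M p (join B K) x < 2 ^ p.eval x.length) ∨
  ∃ c0 : Cd, NV K M p c0 ∧ H c ⊆ H (up c0)

theorem out_fix {K : Oracle} {M : Alg} {p T : Polynomial ℕ} (hT : Bd M p T) {B B' : Oracle}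
    {x w : List Bool} (hw : w.length ≤ p.eval x.length)
    (h : ∀ q : List Bool, q.length ≤ T.eval x.length → B q = B' q) :
    M.out (join B' K) (pairBits w x) = M.out (join B K) (pairBits w x) := by
  have hb := (hT x w (join B K) hw).2
  refine out_agree hb (fun _ _ => rfl) fun q hq => h q ?_
  have h1 := hb _ (mem_QB.1 hq)
  rw [List.length_cons] at h1
  omega

theorem req_RP (K : Oracle) (M : Alg) (p : Polynomial ℕ) : IsReq (ReqRP K M p) := by
  refine ⟨fun c c' h h1 => ?_, fun c ⟨B0, hB0⟩ => ?_⟩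
  · rcases h1 with ⟨x, hx⟩ | ⟨c0, h2, h3⟩
    · exact Or.inl ⟨x, fun B hB => hx B (h.sub hB)⟩
    · exact Or.inr ⟨c0, h2, fun B hB => h3 (h.sub hB)⟩
  · by_cases hN : NV K M p c
    · exact ⟨up c, exists_up hB0, ref_up, Or.inr ⟨c, hN, fun _ h => h⟩⟩
    · unfold NV at hN
      push Not at hN
      obtain ⟨B, hB, x, h1, h2⟩ := hN
      obtain ⟨T, hT⟩ := exists_Bd M p
      have hl : c.l ≤ c.l + T.eval x.length := Nat.le_add_right _ _
      refine ⟨fix c B (c.l + T.eval x.length), ⟨B, fix_mem hB hl⟩, ref_fix hB hl,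
        Or.inl ⟨x, fun B' hB' => ?_⟩⟩
      have he : cnt M p (join B' K) x = cnt M p (join B K) x := by
        unfold cnt
        congr 1
        refine Finset.filter_congr fun w _ => ?_
        rw [out_fix hT (by rw [List.length_ofFn]) fun q hq =>
          H.agree (fix_mem hB hl) hB' (hq.trans (Nat.le_add_left _ _))]
      rw [he]
      exact ⟨h1, h2⟩

/-- The requirement for a pair of nondeterministic machines. -/
def ReqNP (K : Oracle) (M M' : Alg) (p p' : Polynomial ℕ) (c : Cd) : Prop :=
  (∃ x : List Bool, ∀ B ∈ H c, x ∈ Lg M p false (join B K) ∧ x ∈ Lg M' p' false (join B K)) ∨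
  ∃ c0 : Cd, ND K M M' p p' c0 ∧ H c ⊆ H (up c0)

theorem req_NP (K : Oracle) (M M' : Alg) (p p' : Polynomial ℕ) : IsReq (ReqNP K M M' p p') := by
  refine ⟨fun c c' h h1 => ?_, fun c ⟨B0, hB0⟩ => ?_⟩
  · rcases h1 with ⟨x, hx⟩ | ⟨c0, h2, h3⟩
    · exact Or.inl ⟨x, fun B hB => hx B (h.sub hB)⟩
    · exact Or.inr ⟨c0, h2, fun B hB => h3 (h.sub hB)⟩
  · by_cases hN : ND K M M' p p' c
    · exact ⟨up c, exists_up hB0, ref_up, Or.inr ⟨c, hN, fun _ h => h⟩⟩
    · unfold ND at hN
      push Not at hN
      obtain ⟨B, hB, x, ⟨w, hw, h1⟩, ⟨w', hw', h1'⟩⟩ := hN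
      obtain ⟨T, hT⟩ := exists_Bd M p
      obtain ⟨T', hT'⟩ := exists_Bd M' p'
      have hl : c.l ≤ c.l + T.eval x.length + T'.eval x.length := by omega
      refine ⟨fix c B (c.l + T.eval x.length + T'.eval x.length), ⟨B, fix_mem hB hl⟩,
        ref_fix hB hl, Or.inl ⟨x, fun B' hB' => ⟨⟨w, hw, ?_⟩, ⟨w', hw', ?_⟩⟩⟩⟩
      · rw [← h1]
        exact out_fix hT hw.1 fun q hq => H.agree (fix_mem hB hl) hB'
          (show q.length ≤ c.l + T.eval x.length + T'.eval x.length by omega)
      · rw [← h1']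
        exact out_fix hT' hw'.1 fun q hq => H.agree (fix_mem hB hl) hB'
          (show q.length ≤ c.l + T.eval x.length + T'.eval x.length by omega)

/-! ### Diagonalization -/

/-- the questions -/
def qsD (D : List Bool → List Bool) (A : Oracle) (x : List Bool) :
    ℕ → List Bool → Finset (List Bool)
  | 0, _ => ∅
  | n + 1, a =>
    match D (pairBits x a) with
    | [] => ∅
    | true :: _ => ∅
    | false :: q => insert q (qsD D A x n (a ++ [A q]))

theorem qsD_card (D : List Bool → List Bool) (A : Oracle) (x : List Bool) :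
    ∀ (n : ℕ) (a : List Bool), (qsD D A x n a).card ≤ n := by
  intro n
  induction n with
  | zero => intro a; simp [qsD]
  | succ n ih =>
    intro a
    rw [qsD]
    rcases D (pairBits x a) with _ | ⟨b, q⟩
    · simp
    · cases b
      · exact (Finset.card_insert_le _ _).trans (Nat.succ_le_succ (ih _))
      · simp

theorem ask_agree {D : List Bool → List Bool} {A A' : Oracle} {x : List Bool} :
    ∀ (n : ℕ) (a : List Bool), (∀ q ∈ qsD D A x n a, A q = A' q) →
      ask D A' x n a = ask D A x n a := by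
  intro n
  induction n with
  | zero => intro a _; rfl
  | succ n ih =>
    intro a h
    rw [qsD] at h
    rw [ask, ask]
    rcases hD : D (pairBits x a) with _ | ⟨b, q⟩
    · rfl
    · rw [hD] at h
      cases b
      · simp only [Finset.mem_insert] at h ⊢
        rw [← h q (Or.inl rfl)]
        exact ih _ fun u hu => h u (Or.inr hu)
      · rfl

theorem exists_level0 (a e C N : ℕ) : ∃ n, N ≤ n ∧ C * (n + 1) ^ e < (n + 2) ^ (e + 1) ∧
    2 ^ a * (C * (n + 1) ^ e) ≤ 2 ^ n := by
  have h1 := tendsto_pow_const_div_const_pow_of_one_lt e (show (1 : ℝ) < 2 by norm_num)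
  have h2 := (h1.comp (Filter.tendsto_add_atTop_nat 1)).eventually
    (gt_mem_nhds (show (0 : ℝ) < 1 / (2 * (2 ^ a * C + 1)) by positivity))
  obtain ⟨n0, hn0⟩ := Filter.eventually_atTop.1 h2
  refine ⟨n0 + N + C, by omega, ?_, ?_⟩
  · have h3 : (n0 + N + C + 1) ^ e ≤ (n0 + N + C + 2) ^ e := Nat.pow_le_pow_left (by omega) e
    calc C * (n0 + N + C + 1) ^ e ≤ C * (n0 + N + C + 2) ^ e := Nat.mul_le_mul_left _ h3
      _ < (n0 + N + C + 2) * (n0 + N + C + 2) ^ e :=
        Nat.mul_lt_mul_of_pos_right (by omega) (Nat.pow_pos (by omega))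
      _ = (n0 + N + C + 2) ^ (e + 1) := by rw [pow_succ]; ring
  · have h3 := hn0 (n0 + N + C) (by omega)
    set n := n0 + N + C with hn
    simp only [Function.comp_apply] at h3
    have h4 : (0 : ℝ) < 2 ^ (n + 1) := by positivity
    have h5 : (0 : ℝ) < 2 * (2 ^ a * C + 1) := by positivity
    rw [div_lt_div_iff₀ h4 h5] at h3
    have h6 : (2 : ℝ) ^ a * (C * ((n : ℝ) + 1) ^ e) ≤ 2 ^ n := by
      push_cast at h3
      have h7 : (0 : ℝ) ≤ ((n : ℝ) + 1) ^ e := by positivity
      rw [pow_succ] at h3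
      nlinarith
    exact_mod_cast h6

theorem exists_level (a e k C N : ℕ) (hk : k ≤ e) : ∃ n, N ≤ n ∧
    C * (n + 1) ^ k < (n + 2) ^ (e + 1) ∧ 2 ^ a * (C * (n + 1) ^ k) ≤ 2 ^ n := by
  obtain ⟨n, h1, h2, h3⟩ := exists_level0 a e C N
  have h4 : C * (n + 1) ^ k ≤ C * (n + 1) ^ e :=
    Nat.mul_le_mul_left _ (Nat.pow_le_pow_right (by omega) hk)
  exact ⟨n, h1, lt_of_le_of_lt h4 h2, (Nat.mul_le_mul_left _ h4).trans h3⟩

open Classical in
/-- The requirement that `D` with the constant `C` and the exponent `k` does not decide the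
language of the key `e`. -/
def ReqQ (K : Oracle) (e k : ℕ) (D : List Bool → List Bool) (C : ℕ) (c : Cd) : Prop :=
  e ≤ c.l ∧ (e ∉ c.D ∨ ∃ x : List Bool, ∀ B ∈ H c, ¬ ∃ z : List Bool,
    ask D (upTo (C * (x.length + 1) ^ k) (join B K)) x (C * (x.length + 1) ^ k) [] = some z ∧
      (B (crt e x.length) = true ↔ z = [true]))

open Classical in
theorem diag (K : Oracle) (e k : ℕ) (hk : k ≤ e) (D : List Bool → List Bool) (C : ℕ) {c : Cd}
    (he : e ∈ c.D) {B : Oracle} (hB : B ∈ H c) : ∃ c', (H c').Nonempty ∧ Ref c' c ∧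
      ∃ x : List Bool, ∀ B ∈ H c', ¬ ∃ z : List Bool,
        ask D (upTo (C * (x.length + 1) ^ k) (join B K)) x (C * (x.length + 1) ^ k) [] = some z ∧
          (B (crt e x.length) = true ↔ z = [true]) := by
  obtain ⟨n, hn1, hn2, hn3⟩ := exists_level (c.g + 1) e k C (c.l + 1) hk
  set x : List Bool := List.replicate n true with hx
  have hxl : x.length = n := List.length_replicate
  set t := C * (n + 1) ^ k with ht
  set B0 : Oracle := fun q => if ∃ b w, w.length = n ∧ q = loc e b w then false else B q with hB0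
  set U := qsD D (upTo t (join B0 K)) x t [] with hU
  set res := ask D (upTo t (join B0 K)) x t [] with hres
  set β : Bool := decide (¬ res = some [true]) with hβ
  set B1 : Oracle := fun q => if ∃ b w, w.length = n ∧ q = loc e b w then
    decide (∃ w, w.length = n ∧ q = loc e β w ∧ false :: q ∉ U) else
      if q = crt e n then β else B q with hB1
  have hloc : ∀ b w, w.length = n → B1 (loc e b w) =
      decide (b = β ∧ false :: loc e b w ∉ U) := by
    intro b w hw
    rw [hB1]
    beta_reduce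
    rw [if_pos ⟨b, w, hw, rfl⟩, decide_eq_decide]
    constructor
    · rintro ⟨w', h1, h2, h3⟩
      exact ⟨(loc_inj h2).2.1, h3⟩
    · rintro ⟨rfl, h3⟩
      exact ⟨w, hw, rfl, h3⟩
  have hcrt : B1 (crt e n) = β := by
    rw [hB1]
    beta_reduce
    rw [if_neg, if_pos rfl]
    rintro ⟨b, w, _, h⟩
    exact loc_ne_crt _ _ _ _ _ h.symm
  have hother : ∀ q, (∀ b w, w.length = n → q ≠ loc e b w) → q ≠ crt e n → B1 q = B q := by
    intro q h1 h2
    rw [hB1]
    beta_reduce
    rw [if_neg, if_neg h2]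
    rintro ⟨b, w, h3, h4⟩
    exact h1 b w h3 h4
  -- the run is the same
  have hrun : ask D (upTo t (join B1 K)) x t [] = res := by
    refine ask_agree t [] fun u hu => ?_
    unfold upTo
    rcases u with _ | ⟨b, q⟩
    · rfl
    · cases b with
      | true => rfl
      | false =>
        show (decide ((false :: q).length ≤ t) && B0 q) = (decide ((false :: q).length ≤ t) && B1 q)
        by_cases hl : (false :: q).length ≤ t
        · congr 1
          rw [hB0]
          beta_reduce
          split_ifs with h1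
          · obtain ⟨b, w, hw, rfl⟩ := h1
            rw [hloc b w hw]
            symm
            rw [decide_eq_false_iff_not]
            rintro ⟨_, h⟩
            exact h hu
          · refine (hother q (fun b w hw h => h1 ⟨b, w, hw, h⟩) ?_).symm
            rintro rfl
            rw [List.length_cons, crt_length] at hl
            omega
        · rw [decide_eq_false hl]
          rfl
  have hlow : ∀ q, q.length ≤ c.l → B1 q = B q := by
    intro q hq
    refine hother q ?_ ?_
    · rintro b w hw rfl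
      rw [loc_length] at hq
      omega
    · rintro rfl
      rw [crt_length] at hq
      have := lt_pow_succ e n
      omega
  have hB1H : B1 ∈ H c := by
    refine ⟨fun q hq => by rw [hlow q hq]; exact hB.1 q hq, fun e' he' n' => ?_⟩
    by_cases h : e' = e ∧ n' = n
    · obtain ⟨rfl, rfl⟩ := h
      have key : Con c.g e' n' B1 := by
        refine ⟨fun w hw => ?_, ?_⟩
        · rw [hcrt, hloc _ w hw, decide_eq_false_iff_not]
          rintro ⟨h, -⟩
          cases hb : β <;> rw [hb] at h <;> simp at h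
        · rw [hcrt]
          have h1 : (zer B1 e' β n').card ≤ t := by
            refine le_trans ?_ (qsD_card D (upTo t (join B0 K)) x t [])
            refine Finset.card_le_card_of_injOn (fun w => false :: loc e' β (List.ofFn w)) ?_ ?_
            · intro w hw
              rw [Finset.mem_coe] at hw ⊢
              unfold zer at hw
              rw [Finset.mem_filter, hloc _ _ (List.length_ofFn ..), decide_eq_false_iff_not] at hw
              by_contra hcon
              exact hw.2 ⟨rfl, hcon⟩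
            · intro w _ w' _ h
              simp only [List.cons.injEq, true_and] at h
              exact List.ofFn_injective (loc_inj h).2.2
          exact (Nat.mul_le_mul_left _ h1).trans hn3
      exact ⟨key.mono (Nat.zero_le _), fun _ => key⟩
    · have h1 : B1 (crt e' n') = B (crt e' n') := by
        refine hother _ ?_ ?_
        · rintro b w _ h2
          exact loc_ne_crt _ _ _ _ _ h2.symm
        · intro h2
          obtain ⟨h3, h4⟩ := crt_inj h2
          exact h ⟨h3, h4⟩
      have h2 : ∀ (b : Bool) (w : List Bool), w.length = n' → B (loc e' b w) = B1 (loc e' b w) := by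
        intro b w hw
        refine (hother _ ?_ ?_).symm
        · rintro b' w' hw' h2
          obtain ⟨rfl, rfl, rfl⟩ := loc_inj h2
          exact h ⟨rfl, hw.symm.trans hw'⟩
        · exact loc_ne_crt _ _ _ _ _
      exact ⟨((hB.2 e' he' n').1).congr h1.symm h2,
        fun hl => ((hB.2 e' he' n').2 hl).congr h1.symm h2⟩
  have hl' : c.l ≤ c.l + t + (crt e n).length := by omega
  refine ⟨fix c B1 (c.l + t + (crt e n).length), ⟨B1, fix_mem hB1H hl'⟩, ref_fix hB1H hl',
    x, fun B2 hB2 => ?_⟩
  rw [hxl]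
  have hag : ∀ q : List Bool, q.length ≤ c.l + t + (crt e n).length → B2 q = B1 q := fun q hq =>
    H.agree hB2 (fix_mem hB1H hl') hq
  have hup : upTo t (join B2 K) = upTo t (join B1 K) := by
    funext u
    unfold upTo
    rcases u with _ | ⟨b, q⟩
    · rfl
    · cases b with
      | true => rfl
      | false =>
        show (decide ((false :: q).length ≤ t) && B2 q) = (decide ((false :: q).length ≤ t) && B1 q)
        by_cases hl : (false :: q).length ≤ t
        · rw [hag q]
          rw [List.length_cons] at hl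
          omega
        · rw [decide_eq_false hl]
          rfl
  rintro ⟨z, hz1, hz2⟩
  change ask D (upTo t (join B2 K)) x t [] = some z at hz1
  rw [hup, hrun] at hz1
  rw [hag _ (by omega), hcrt, hβ, hz1] at hz2
  simp only [Option.some.injEq, decide_eq_true_eq] at hz2
  exact absurd hz2 (by tauto)

theorem req_Q (K : Oracle) (e k : ℕ) (hk : k ≤ e) (D : List Bool → List Bool) (C : ℕ) :
    IsReq (ReqQ K e k D C) := by
  refine ⟨fun c c' h h1 => ?_, fun c ⟨B, hB⟩ => ?_⟩
  · obtain ⟨h2, h3⟩ := h1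
    refine ⟨h2.trans h.len, ?_⟩
    rcases h3 with h3 | ⟨x, hx⟩
    · left
      intro h4
      rcases h.fresh e h4 with h5 | h5
      · exact h3 h5
      · omega
    · exact Or.inr ⟨x, fun B hB => hx B (h.sub hB)⟩
  · obtain ⟨c1, ⟨B1, hB1⟩, hr1, hl1⟩ := (req_len e).dense c ⟨B, hB⟩
    by_cases he : e ∈ c1.D
    · obtain ⟨c2, h2, hr2, hx⟩ := diag K e k hk D C he hB1
      exact ⟨c2, h2, hr2.trans hr1, hl1.trans hr2.len, Or.inr hx⟩
    · exact ⟨c1, ⟨B1, hB1⟩, hr1, hl1, Or.inl he⟩

/-! ### The oracle -/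

/-- **The generic oracle.** -/
theorem exists_generic {ι : Type} [Countable ι] (P : ι → Cd → Prop)
    (hP : ∀ i, IsReq (P i)) : ∃ (B : Oracle) (f : ℕ → Cd), (∀ s s', s ≤ s' → Ref (f s') (f s)) ∧
      (∀ s, B ∈ H (f s)) ∧ ∀ i, ∃ s, P i (f s) := by
  classical
  -- all requirements, with those for the lengths
  obtain ⟨g, hg⟩ : ∃ g : ℕ → ℕ ⊕ ι, Function.Surjective g := exists_surjective_nat _
  set R : ℕ ⊕ ι → Cd → Prop := fun i => match i with
    | Sum.inl n => fun c => n ≤ c.l
    | Sum.inr i => P i with hR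
  have hRr : ∀ i, IsReq (R i) := by
    rintro (n | i)
    · exact req_len n
    · exact hP i
  -- the first condition
  set c0 : Cd := ⟨0, if (fun _ => false : Oracle) [] = true then {[]} else ∅, ∅, 0⟩ with hc0
  have h0 : (H c0).Nonempty := by
    refine ⟨fun _ => false, fun q _ => ?_, fun e he => ?_⟩
    · rw [hc0]
      simp
    · rw [hc0] at he
      simp at he
  choose! nx hnx1 hnx2 hnx3 using fun (i : ℕ ⊕ ι) (c : Cd) (h : (H c).Nonempty) =>
    (hRr i).dense c h
  set f : ℕ → Cd := fun s => Nat.rec c0 (fun s c => nx (g s) c) s with hf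
  have hf0 : f 0 = c0 := rfl
  have hfs : ∀ s, f (s + 1) = nx (g s) (f s) := fun s => rfl
  have hne : ∀ s, (H (f s)).Nonempty := by
    intro s
    induction s with
    | zero => exact h0
    | succ s ih => rw [hfs]; exact hnx1 _ _ ih
  have href : ∀ s, Ref (f (s + 1)) (f s) := fun s => by rw [hfs]; exact hnx2 _ _ (hne s)
  have href' : ∀ s s', s ≤ s' → Ref (f s') (f s) := by
    intro s s' h
    induction s' with
    | zero =>
      have : s = 0 := by omega
      subst this
      exact Ref.refl _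
    | succ s' ih =>
      rcases Nat.lt_or_ge s (s' + 1) with h1 | h1
      · exact (href s').trans (ih (by omega))
      · have : s = s' + 1 := by omega
        subst this
        exact Ref.refl _
  have hmeet : ∀ i, ∃ s, R i (f s) := by
    intro i
    obtain ⟨s, rfl⟩ := hg i
    exact ⟨s + 1, by rw [hfs]; exact hnx3 _ _ (hne s)⟩
  choose B hB using hne
  have hlen : ∀ n, ∃ s, n ≤ (f s).l := fun n => hmeet (Sum.inl n)
  choose u hu using hlen
  have hmono : ∀ s s', s ≤ s' → (f s).l ≤ (f s').l := fun s s' h => (href' s s' h).len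
  have hstab : ∀ s s' (q : List Bool), q.length ≤ (f s).l → s ≤ s' → B s' q = B s q := by
    intro s s' q hq h
    exact H.agree ((href' s s' h).sub (hB s')) (hB s) hq
  set Bf : Oracle := fun q => B (u q.length) q with hBf
  have hBfe : ∀ s (q : List Bool), q.length ≤ (f s).l → Bf q = B s q := by
    intro s q hq
    rw [hBf]
    beta_reduce
    rcases Nat.le_total s (u q.length) with h | h
    · exact hstab s _ q hq h
    · exact (hstab _ s q (hu q.length) h).symm
  have hBH : ∀ s, Bf ∈ H (f s) := by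
    intro s
    refine ⟨fun q hq => by rw [hBfe s q hq]; exact (hB s).1 q hq, fun e he n => ?_⟩
    obtain ⟨s', hs'⟩ : ∃ s', s ≤ s' ∧ (crt e n).length ≤ (f s').l := by
      refine ⟨max s (u (crt e n).length), le_max_left _ _, ?_⟩
      exact (hu _).trans (hmono _ _ (le_max_right _ _))
    have h1 := (href' s s' hs'.1).sub (hB s')
    have h2 : B s' (crt e n) = Bf (crt e n) := (hBfe s' _ hs'.2).symm
    have h3 : ∀ (b : Bool) (w : List Bool), w.length = n → B s' (loc e b w) = Bf (loc e b w) := by
      intro b w hw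
      refine (hBfe s' _ ?_).symm
      rw [loc_length, hw]
      have h4 := hs'.2
      rw [crt_length] at h4
      have h5 := lt_pow_succ e n
      omega
    exact ⟨((h1.2 e he n).1).congr h2 h3, fun hl => ((h1.2 e he n).2 hl).congr h2 h3⟩
  exact ⟨Bf, f, href', hBH, fun i => hmeet (Sum.inr i)⟩

end Pool.Agent.L0h33.UD
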